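import Pool.Agent.H93.RG.RingC

/-!
# FG for blocks of size `r`: the ring: degrees and the Tseitin ideal over a field of characteristic `p`
-/

set_option autoImplicit false
set_option linter.unusedSectionVars false

namespace Pool.Agent.H93.RG

open Finset
open Pool.Agent.H3.Frg hiding ind
open Pool.Agent.H3.Ac (ldep SubCl)
open Pool.Agent.H67.FG (ind Alg Fo tr orAll orF IsRef Few)

/-- the algebra: local functions have low degree, violations are in `Z` -/
theorem alg_exists (p : ℕ) [Fact p.Prime] (r : ℕ) (hr : 2 ≤ r) (hpr : ¬ p ∣ r) (q K c : ℕ) (hq : 3 < q)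
    (hK : 9 * K < q ^ 2) (hqK : q - 1 ≤ K) : ∃ 𝓐 : Alg (ZMod p) (Ed q → ZMod r), 𝓐.K = K ∧
      (∀ (S : Finset (Ed q)) (f : (Ed q → ZMod r) → ZMod p), (∀ y y', (∀ e ∈ S, y e = y' e) → f y = f y') →
        f ∈ 𝓐.Deg S.card) ∧ ∀ a : Fin q, ind (fun y => Vio c a y) ∈ 𝓐.Z :=
  alg_exists' p r hr hpr q K c hq hK hqK

end Pool.Agent.H93.RG
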