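import Pool.Agent.H93.RG.Defs
import Pool.Agent.H63.RG.Pro

/-!
# FG for blocks of size `r`: the process (port of H67/FG/Pro)
-/

set_option autoImplicit false
set_option linter.unusedSectionVars false

namespace Pool.Agent.H93.RG

open Finset
open Pool.Agent.H3.Frg hiding ind
open Pool.Agent.H3.Ac (ldep SubCl)
open Pool.Agent.H67.FG (ind Alg Fo tr orAll orF IsRef Few)

variable {V : Type} [Fintype V] [DecidableEq V] {r : ℕ}

/-- a decided value comes from a small part of `M` -/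
theorem run_spec (hr : 1 ≤ r) (w : ℕ) (f : Finset (Finset V) → Option Bool) {M : Finset (Finset V)} (hM : IsM r M)
    (n : ℕ) (b : Bool) (h : run r w f M n ∅ = some b) :
    ∃ π, π ⊆ M ∧ π.card ≤ n * (r * w) ∧ dec r w f π = some b :=
  H63.RG.run_spec hr w f hM n b h

variable {k Y : Type} [Field k]

/-- the process is a function of low degree -/
theorem run_deg (hr : 1 ≤ r) (𝓦 : MW r k Y V) (w : ℕ) (f : Finset (Finset V) → Option Bool) (n : ℕ)
    (π : Finset (Finset V)) (b : Option Bool) :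
    ind (fun y => run r w f (𝓦.M y) n π = b) ∈ 𝓦.Deg (n * (r * w) * 𝓦.c) :=
  H63.RG.run_deg hr 𝓦 w f n π b

/-- the process is stuck only in `Z` -/
theorem run_stk (hr : 1 ≤ r) (𝓦 : MW r k Y V) {w : ℕ} {f : Finset (Finset V) → Option Bool}
    (hf : Val r w (2 * r * r * w) f) (hw : 1 ≤ w) (hK : 3 * ((w + 1) * (r * w) * 𝓦.c) + 𝓦.c ≤ 𝓦.K) :
    ind (fun y => run r w f (𝓦.M y) (w + 1) ∅ = none) ∈ 𝓦.Z :=
  H63.RG.run_stk hr 𝓦 hf hw hK

end Pool.Agent.H93.RG
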