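import Pool.Agent.H93.RG.Defs

/-!
# FG for blocks of size `r`: the Tseitin contradiction modulo `r` on the complete graph
-/

set_option autoImplicit false
set_option linter.unusedSectionVars false

namespace Pool.Agent.H93.RG

open Finset
open Pool.Agent.H3.Frg hiding ind
open Pool.Agent.H3.Ac (ldep SubCl)
open Pool.Agent.H67.FG (ind Alg Fo tr orAll orF IsRef Few)

/-- edges of the complete graph -/
abbrev Ed (q : ℕ) : Type := {s : Sym2 (Fin q) // ¬ s.IsDiag}

/-- the flow from `a` to `b` -/
def flow {r q : ℕ} (y : Ed q → ZMod r) (a b : Fin q) : ZMod r :=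
  if h : s(a, b).IsDiag then 0 else if a < b then y ⟨s(a, b), h⟩ else - y ⟨s(a, b), h⟩

/-- the charge: `c` at the vertex `0` -/
def ch (r c : ℕ) {q : ℕ} (a : Fin q) : ZMod r := if (a : ℕ) = 0 then (c : ZMod r) else 0

/-- the flow at `a` is wrong -/
def Vio (c : ℕ) {r q : ℕ} (a : Fin q) (y : Ed q → ZMod r) : Prop := ∑ b, flow y a b ≠ ch r c a

/-- the edges at `a` -/
def atv {q : ℕ} (a : Fin q) : Finset (Ed q) := univ.filter fun e => a ∈ e.1

/-- the points: `r - 1` points for each ordered pair and `c` more points (in the group of the vertex `0`) -/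
abbrev Pt (r q c : ℕ) : Type := ({x : Fin q × Fin q // x.1 ≠ x.2} × Fin (r - 1)) ⊕ Fin c

end Pool.Agent.H93.RG
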