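import Mathlib
import Pool.Agent.H3.Ac.Defs
import Pool.Agent.H67.FG.Out

/-!
# FG for blocks of size `r`: definitions

Partial partitions of a finite set `V` into blocks of size `r` (finite sets of pairwise disjoint blocks), lists `F`
of them, the canonical process `Stp r F`, three-valued functions (`Val`), coherent families (`Coh`), the process
`run`, the world `MW`. The case `r = 2` is `Pool.Agent.H3.Ac` and `Pool.Agent.H67.FG`.
-/

set_option autoImplicit false

namespace Pool.Agent.H93.RG

open Finset
open Pool.Agent.H3.Frg hiding ind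
open Pool.Agent.H3.Ac (ldep SubCl)
open Pool.Agent.H67.FG (ind Alg Fo tr orAll orF)

section Matching

variable {V : Type}

/-- partial partitions: sets of pairwise disjoint blocks of size `r` -/
def IsM (r : ℕ) (M : Finset (Finset V)) : Prop :=
  (∀ e ∈ M, e.card = r) ∧ ∀ e ∈ M, ∀ f ∈ M, ∀ v, v ∈ e → v ∈ f → e = f

open scoped Classical in
/-- covered points -/
noncomputable def cov [Fintype V] (M : Finset (Finset V)) : Finset V :=
  univ.filter fun v => ∃ e ∈ M, v ∈ e

/-- compatible partial partitions -/
def Cmp [DecidableEq V] (r : ℕ) (t M : Finset (Finset V)) : Prop := IsM r (t ∪ M)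

open scoped Classical in
/-- the first term that is compatible with `M` -/
noncomputable def fst [DecidableEq V] (r : ℕ) (F : List (Finset (Finset V))) (M : Finset (Finset V)) :
    Option (Finset (Finset V)) := F.find? fun t => decide (Cmp r t M)

/-- one step of the canonical process -/
def Stp [Fintype V] [DecidableEq V] (r : ℕ) (F : List (Finset (Finset V))) (π π' : Finset (Finset V)) : Prop :=
  ∃ t, fst r F π = some t ∧ ¬ t ⊆ π ∧ IsM r π' ∧ π ⊆ π' ∧ cov t ⊆ cov π' ∧
    ∀ e ∈ π', e ∉ π → ∃ v ∈ e, v ∈ cov t

/-- the canonical process from `ρ` can add more than `k` blocks -/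
def Bad [Fintype V] [DecidableEq V] (r : ℕ) (F : List (Finset (Finset V))) (k : ℕ)
    (ρ : Finset (Finset V)) : Prop :=
  ∃ π, Relation.ReflTransGen (Stp r F) ρ π ∧ ρ.card + k < π.card

open scoped Classical in
/-- partial partitions with `m` blocks -/
noncomputable def Mtc (r : ℕ) (V : Type) [Fintype V] [DecidableEq V] (m : ℕ) :
    Finset (Finset (Finset V)) := univ.filter fun M => IsM r M ∧ M.card = m

/-- decoding -/
inductive DecR [Fintype V] [DecidableEq V] (r : ℕ) (F : List (Finset (Finset V))) :
    ℕ → Finset (Finset V) → Finset (Finset V) → Finset (Finset V) → Prop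
  | nil (μ θ : Finset (Finset V)) : DecR r F 0 μ θ (μ \ θ)
  | cons (j : ℕ) (μ θ ρ t σ δ : Finset (Finset V)) : fst r F μ = some t → σ ⊆ t → σ ⊆ μ →
      σ.Nonempty → IsM r ((μ \ σ) ∪ δ) → Disjoint (μ \ σ) δ → cov σ ⊆ cov δ →
      (∀ e ∈ δ, ∃ v ∈ e, v ∈ cov σ) → DecR r F j ((μ \ σ) ∪ δ) (θ ∪ δ) ρ →
      DecR r F (j + σ.card) μ θ ρ

/-- A three-valued function of partial partitions: monotone, every value has a witness with at most `w` blocks, and
every partial partition with `r * |M| + R ≤ |V|` extends by at most `w` blocks to one where the value is defined. -/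
structure Val [Fintype V] (r w R : ℕ) (f : Finset (Finset V) → Option Bool) : Prop where
  /-- monotone -/
  mono : ∀ M M', IsM r M' → M ⊆ M' → ∀ b, f M = some b → f M' = some b
  /-- small witnesses -/
  wit : ∀ M, IsM r M → ∀ b, f M = some b → ∃ t, t ⊆ M ∧ t.card ≤ w ∧ f t = some b
  /-- short extensions where the value is defined -/
  tot : ∀ M, IsM r M → r * M.card + R ≤ Fintype.card V →
    ∃ M', IsM r M' ∧ M ⊆ M' ∧ M'.card ≤ M.card + w ∧ f M' ≠ none

/-- the values respect the connectives -/
structure Coh {W : Type} (r : ℕ) (val : Fm W → Finset (Finset V) → Option Bool) (S : Set (Fm W)) : Prop where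
  /-- negation -/
  neg : ∀ A, Fm.neg A ∈ S → ∀ M, IsM r M → ∀ a b, val A M = some a →
    val (Fm.neg A) M = some b → b = !a
  /-- implication -/
  imp : ∀ A B, Fm.imp A B ∈ S → ∀ M, IsM r M → ∀ a b c, val A M = some a → val B M = some b →
    val (Fm.imp A B) M = some c → c = (!a || b)

end Matching

section Lift

variable {V : Type} [Fintype V] [DecidableEq V]

/-- the uncovered points -/
abbrev Unc (ρ : Finset (Finset V)) : Type := {v : V // v ∉ cov ρ}

/-- a block of uncovered points as a block of `V` -/
def up {ρ : Finset (Finset V)} (e : Finset (Unc ρ)) : Finset V := e.map (Function.Embedding.subtype _)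

/-- a partial partition of the uncovered points together with `ρ` -/
def lft (ρ : Finset (Finset V)) (M : Finset (Finset (Unc ρ))) : Finset (Finset V) :=
  ρ ∪ M.image up

open scoped Classical in
/-- the part of a partial partition inside the uncovered points -/
noncomputable def rst (ρ N : Finset (Finset V)) : Finset (Finset (Unc ρ)) :=
  univ.filter fun e => up e ∈ N

end Lift

section World

/-- the blocks of a partial partition at the points of `A` -/
noncomputable def tch {V : Type} [DecidableEq V] (A : Finset V) (M : Finset (Finset V)) : Finset (Finset V) :=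
  open scoped Classical in M.filter fun e => ∃ v ∈ A, v ∈ e

/-- the world: `c` is the cost (in degree) of asking for the block of one point -/
structure MW (r : ℕ) (k Y V : Type) [Field k] [Fintype V] [DecidableEq V] extends Alg k Y where
  /-- the partial partition -/
  M : Y → Finset (Finset V)
  /-- cost of a query -/
  c : ℕ
  /-- partial partition -/
  isM : ∀ y, IsM r (M y)
  /-- the blocks at the points of `A` are a local function -/
  loc : ∀ (A : Finset V) (δ : Finset (Finset V)), ind (fun y => tch A (M y) = δ) ∈ Deg (A.card * c)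
  /-- a point is uncovered only where there is a contradiction -/
  stk : ∀ A : Finset V, 2 * (A.card * c) + c ≤ K → ind (fun y => ¬ A ⊆ cov (M y)) ∈ Z

variable {V : Type} [Fintype V] [DecidableEq V]

open scoped Classical in
/-- the value which is decided at `π` -/
noncomputable def dec (r w : ℕ) (f : Finset (Finset V) → Option Bool) (π : Finset (Finset V)) : Option Bool :=
  if ∀ t, IsM r t → t.card ≤ w → f t = some false → ¬ Cmp r t π then some true
  else if ∀ t, IsM r t → t.card ≤ w → f t = some true → ¬ Cmp r t π then some false
  else none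

open scoped Classical in
/-- a compatible witness of truth -/
noncomputable def wtn (r w : ℕ) (f : Finset (Finset V) → Option Bool) (π : Finset (Finset V)) : Finset (Finset V) :=
  if h : ∃ t, IsM r t ∧ t.card ≤ w ∧ f t = some true ∧ Cmp r t π then h.choose else ∅

open scoped Classical in
/-- the process -/
noncomputable def run (r w : ℕ) (f : Finset (Finset V) → Option Bool) (M : Finset (Finset V)) :
    ℕ → Finset (Finset V) → Option Bool
  | 0, π => dec r w f π
  | n + 1, π => if (dec r w f π).isSome then dec r w f π
      else if cov (wtn r w f π) ⊆ cov M then run r w f M n (π ∪ tch (cov (wtn r w f π)) M) else none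

/-- the sizes of the point sets in the tower -/
def lev (r w L : ℕ) : ℕ → ℕ
  | 0 => L
  | i + 1 => r * (2 ^ (r + 2) * w * (lev r w L i) ^ (r * r)) + lev r w L i

end World

/-- The hypotheses of the counting principle: the points of `Fin N` have a partition into blocks of size `r`. The
variable `B` says that `B` is a block. -/
def Count (r N : ℕ) : Set (Fo (Finset (Fin N))) :=
  {A | (∃ (a : Fin N) (B C : Finset (Fin N)), a ∈ B ∧ a ∈ C ∧ B ≠ C ∧ A = .imp (.var B) (.neg (.var C))) ∨
    ∃ (a : Fin N) (l : List (Fo (Finset (Fin N)))) (B : Fo (Finset (Fin N))), A = orAll l B ∧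
      ∀ e : Finset (Fin N), e.card = r → a ∈ e → .var e ∈ B :: l}

end Pool.Agent.H93.RG
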