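import Pool.Agent.H93.RG.Pro
import Pool.Agent.H27.RG.Com

/-!
# FG for blocks of size `r`: decided values at one partial partition (port of H67/FG/Com)
-/

set_option autoImplicit false
set_option linter.unusedSectionVars false

namespace Pool.Agent.H93.RG

open Finset
open Pool.Agent.H3.Frg hiding ind
open Pool.Agent.H3.Ac (ldep SubCl)
open Pool.Agent.H67.FG (ind Alg Fo tr orAll orF IsRef Few)

variable {W V : Type} [Fintype V] [DecidableEq V] {r : ℕ}

/-- decided values of at most three formulas are the values at one partial partition -/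
theorem common (hr : 1 ≤ r) {w : ℕ} {val : Fm W → Finset (Finset V) → Option Bool} {S : Set (Fm W)}
    (hval : ∀ A ∈ S, Val r w (2 * r * r * w) (val A)) (hL : 100 * r ^ 2 * (w + 1) ^ 2 ≤ Fintype.card V)
    (l : List (Fm W)) (hl : l.length ≤ 3) (hS : ∀ A ∈ l, A ∈ S) {M : Finset (Finset V)} (hM : IsM r M)
    (b : Fm W → Bool) (h : ∀ A ∈ l, run r w (val A) M (w + 1) ∅ = some (b A)) :
    ∃ N, IsM r N ∧ ∀ A ∈ l, val A N = some (b A) :=
  H27.RG.common hr hval hL l hl hS hM b h

end Pool.Agent.H93.RG
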