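import Pool.Agent.H93.RG.Ring
import Pool.Agent.H87.RG.WorldB

/-!
# FG for blocks of size `r`: the world (port of H87/FG/MatA)
-/

set_option autoImplicit false
set_option linter.unusedSectionVars false

namespace Pool.Agent.H93.RG

open Finset
open Pool.Agent.H3.Frg hiding ind
open Pool.Agent.H3.Ac (ldep SubCl)
open Pool.Agent.H67.FG (ind Alg Fo tr orAll orF IsRef Few)

theorem card_Pt (r q c : ℕ) : Fintype.card (Pt r q c) = q * (q - 1) * (r - 1) + c :=
  H87.RG.card_Pt r q c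

/-- the world -/
theorem world_exists (p : ℕ) [Fact p.Prime] (r : ℕ) (hr : 2 ≤ r) (hpr : ¬ p ∣ r) (q K c : ℕ) (hq : 3 < q)
    (hq1 : q % r = 1) (hK : 9 * K < q ^ 2) (hqK : q - 1 ≤ K) :
    ∃ 𝓦 : MW r (ZMod p) (Ed q → ZMod r) (Pt r q c), 𝓦.c = q - 1 ∧ 𝓦.K = K :=
  H87.RG.world_exists p r hr hpr q K c hq hq1 hK hqK

end Pool.Agent.H93.RG
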