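import Pool.Agent.H93.RG.Mat
import Pool.Agent.H90.RG.Cnt

/-!
# FG for blocks of size `r`: counting (port of H3/Ac/Cnt)
-/

set_option autoImplicit false
set_option linter.unusedSectionVars false

namespace Pool.Agent.H93.RG

open Finset
open Pool.Agent.H3.Frg hiding ind
open Pool.Agent.H3.Ac (ldep SubCl)
open Pool.Agent.H67.FG (ind Alg Fo tr orAll orF IsRef Few)

variable {V : Type} [Fintype V] [DecidableEq V] {r : ℕ}

theorem mem_Mtc {m : ℕ} {M : Finset (Finset V)} : M ∈ Mtc r V m ↔ IsM r M ∧ M.card = m :=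
  H90.RG.mem_Mtc

theorem card_Mtc_add (hr : 1 ≤ r) (m ℓ : ℕ) (h : r * m + ℓ = Fintype.card V) (j : ℕ) :
    ((Mtc r V (m + j)).card : ℝ) ≤ (Mtc r V m).card * ((ℓ : ℝ) ^ r / (m + 1)) ^ j :=
  H90.RG.card_Mtc_add hr m ℓ h j

theorem Mtc_nonempty (hr : 1 ≤ r) (m : ℕ) (h : r * m ≤ Fintype.card V) : (Mtc r V m).Nonempty :=
  H90.RG.Mtc_nonempty hr m h

end Pool.Agent.H93.RG
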