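import Pool.Agent.H93.RG.Mat
import Pool.Agent.H6.RG.Cov

/-!
# FG for blocks of size `r`: a bad base can be decoded (port of H3/Ac/Cov)
-/

set_option autoImplicit false
set_option linter.unusedSectionVars false

namespace Pool.Agent.H93.RG

open Finset
open Pool.Agent.H3.Frg hiding ind
open Pool.Agent.H3.Ac (ldep SubCl)
open Pool.Agent.H67.FG (ind Alg Fo tr orAll orF IsRef Few)

variable {V : Type} [Fintype V] [DecidableEq V] {r : ℕ}

theorem bad_dec (hr : 1 ≤ r) (F : List (Finset (Finset V))) (k : ℕ) {ρ : Finset (Finset V)} (hρ : IsM r ρ)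
    (hbad : Bad r F k ρ) :
    ∃ (j : ℕ) (μ : Finset (Finset V)), k < r * j ∧ IsM r μ ∧ μ.card = ρ.card + j ∧
      DecR r F j μ ∅ ρ :=
  H6.RG.bad_dec hr F k hρ hbad

end Pool.Agent.H93.RG
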