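import Pool.Agent.H93.RG.Mat
import Pool.Agent.H65.RG.Dec

/-!
# FG for blocks of size `r`: the number of partial partitions that can be decoded (port of H3/Ac/Dec)
-/

set_option autoImplicit false
set_option linter.unusedSectionVars false

namespace Pool.Agent.H93.RG

open Finset
open Pool.Agent.H3.Frg hiding ind
open Pool.Agent.H3.Ac (ldep SubCl)
open Pool.Agent.H67.FG (ind Alg Fo tr orAll orF IsRef Few)

variable {V : Type} [Fintype V] [DecidableEq V] {r : ℕ}

open scoped Classical in
theorem card_DecR (hr : 1 ≤ r) (F : List (Finset (Finset V))) (w ℓ : ℕ) (hF : ∀ t ∈ F, IsM r t ∧ t.card ≤ w) :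
    ∀ (j : ℕ) (μ θ : Finset (Finset V)), IsM r μ → Fintype.card V + r * j ≤ r * μ.card + ℓ →
      (univ.filter fun ρ => DecR r F j μ θ ρ).card ≤ (2 * w * ℓ ^ (r * (r - 1))) ^ j :=
  H65.RG.card_DecR hr F w ℓ hF

end Pool.Agent.H93.RG
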