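import Pool.Agent.H67.RG.FinR

/-!
# Counting with blocks whose size is divisible by `p`: substitution

If `x_B` is replaced by `x_B'` where `B` consists of all `a` copies of the points of `B'`, and by a false formula where
there is no such `B'`, then a refutation of the counting principle for `a N` points and blocks of size `a r` becomes
one for `N` points and blocks of size `r`.
-/

set_option autoImplicit false

namespace Pool.Agent.H93.RG.Blk

open Pool.Agent.H3.Frg
open Pool.Agent.H67.FG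

section Subst

variable {V W : Type} (s : V → Fo W)

/-- substitution of formulas for the variables -/
def sb : Fo V → Fo W
  | .var v => s v
  | .neg A => .neg (sb A)
  | .imp A B => .imp (sb A) (sb B)
  | .mod a n f => .mod a n fun i => sb (f i)

theorem sb_dep {D : ℕ} (hD : ∀ v, (s v).dep ≤ D) (A : Fo V) : (sb s A).dep ≤ A.dep + D := by
  induction A with
  | var v => simpa [sb, Fo.dep] using hD v
  | neg A ih => simp only [sb, Fo.dep]; omega
  | imp A B ihA ihB => simp only [sb, Fo.dep]; omega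
  | mod a n f ih => simp [sb, Fo.dep]

theorem sb_subs {E : Set (Fo W)} (hE : ∀ v, ∀ B ∈ (s v).subs, B = s v ∨ B ∈ E) (A : Fo V) :
    ∀ B ∈ (sb s A).subs, (∃ C ∈ A.subs, sb s C = B) ∨ B ∈ E := by
  induction A with
  | var v =>
    intro B hB
    rcases hE v B hB with h | h
    · exact Or.inl ⟨.var v, by simp [Fo.subs], by rw [h]; rfl⟩
    · exact Or.inr h
  | neg A ih =>
    intro B hB
    simp only [sb, Fo.subs, List.mem_cons] at hB
    rcases hB with h | h
    · exact Or.inl ⟨.neg A, by simp [Fo.subs], by rw [h]; rfl⟩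
    · rcases ih B h with ⟨C, hC, e⟩ | h
      · exact Or.inl ⟨C, by simp [Fo.subs, hC], e⟩
      · exact Or.inr h
  | imp A B ihA ihB =>
    intro X hX
    simp only [sb, Fo.subs, List.mem_cons, List.mem_append] at hX
    rcases hX with h | h | h
    · exact Or.inl ⟨.imp A B, by simp [Fo.subs], by rw [h]; rfl⟩
    · rcases ihA X h with ⟨C, hC, e⟩ | h
      · exact Or.inl ⟨C, by simp [Fo.subs, hC], e⟩
      · exact Or.inr h
    · rcases ihB X h with ⟨C, hC, e⟩ | h
      · exact Or.inl ⟨C, by simp [Fo.subs, hC], e⟩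
      · exact Or.inr h
  | mod a n f ih =>
    intro X hX
    simp only [sb, Fo.subs, List.mem_cons, List.mem_flatMap, List.mem_finRange, true_and] at hX
    rcases hX with h | ⟨i, h⟩
    · exact Or.inl ⟨.mod a n f, by simp [Fo.subs], by rw [h]; rfl⟩
    · rcases ih i X h with ⟨C, hC, e⟩ | h
      · exact Or.inl ⟨C, by simp only [Fo.subs, List.mem_cons, List.mem_flatMap, List.mem_finRange, true_and]; exact Or.inr ⟨i, hC⟩, e⟩
      · exact Or.inr h

theorem sb_outer (hs : ∀ v, (s v).outer = ∅) (A : Fo V) : (sb s A).outer = sb s '' A.outer := by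
  induction A with
  | var v => simp [sb, Fo.outer, hs v]
  | neg A ih => simpa [sb, Fo.outer] using ih
  | imp A B ihA ihB => simp only [sb, Fo.outer, ihA, ihB, Set.image_union]
  | mod a n f ih => simp [sb, Fo.outer]

theorem sb_mod (hs : ∀ v, (s v).outer = ∅) {A : Fo V} {a n : ℕ} {f : Fin n → Fo W} (h : sb s A = .mod a n f) :
    ∃ g : Fin n → Fo V, A = .mod a n g ∧ f = fun i => sb s (g i) := by
  cases A with
  | var v =>
    have := hs v
    simp only [sb] at h
    rw [h] at this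
    simp [Fo.outer] at this
  | neg A => simp [sb] at h
  | imp A B => simp [sb] at h
  | mod a' n' g =>
    simp only [sb, Fo.mod.injEq] at h
    obtain ⟨rfl, rfl, h⟩ := h
    exact ⟨g, rfl, (eq_of_heq h).symm⟩

theorem few_sb (hs : ∀ v, (s v).outer = ∅) {t : ℕ} : ∀ (l : ℕ) (A : Fo V), Few t l A → Few t l (sb s A)
  | 0, A, h => by
    simp only [Few] at h ⊢
    rw [sb_outer s hs, h, Set.image_empty]
  | l + 1, A, h => by
    simp only [Few] at h ⊢
    obtain ⟨Γ, hf, hc, ho, hg⟩ := h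
    refine ⟨sb s '' Γ, hf.image _, (Set.ncard_image_le hf).trans hc, ?_, ?_⟩
    · rw [sb_outer s hs]
      exact Set.image_mono ho
    · rintro a n f ⟨G, hG, e⟩ i
      obtain ⟨g, rfl, rfl⟩ := sb_mod s hs e
      rcases hg a n g hG i with h | h
      · left
        rw [sb_outer s hs]
        exact Set.image_mono h
      · exact Or.inr (few_sb hs l _ h)

theorem sb_inst (σ : ℕ → Fo V) (ψ : Fm ℕ) : sb s (inst σ ψ) = inst (fun i => sb s (σ i)) ψ := by
  induction ψ with
  | var i => rfl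
  | neg A ih => simp only [inst, sb, ih]
  | imp A B ihA ihB => simp only [inst, sb, ihA, ihB]

theorem sb_orAll (l : List (Fo V)) (B : Fo V) : sb s (orAll l B) = orAll (l.map (sb s)) (sb s B) := by
  induction l with
  | nil => rfl
  | cons A l ih => simp only [orAll, sb, ih, List.map_cons]

theorem resp_sb {p : ℕ} {v : Fo W → Bool} (hv : Resp p v) : Resp p fun A => v (sb s A) := by
  intro a n f
  exact hv a n fun i => sb s (f i)

/-- a substitution which sends the hypotheses to hypotheses or to instances of schemes transforms refutations -/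
theorem ref_sb {p k k' : ℕ} {H : Set (Fo V)} {H' : Set (Fo W)} (hk : k ≤ k')
    (hH : ∀ A ∈ H, sb s A ∈ H' ∨ ∃ (ψ : Fm ℕ) (σ : ℕ → Fo W), ψ.len ≤ k' ∧
      (∀ v : Fo W → Bool, Resp p v → ψ.eval (fun n => v (σ n)) = true) ∧ sb s A = inst σ ψ)
    {π : List (Fo V)} (hπ : IsRef p k H π) : IsRef p k' H' (π.map (sb s)) := by
  refine ⟨?_, ?_⟩
  · intro i hi
    have hi' : i < π.length := by simpa using hi
    rw [List.getElem_map]
    rcases hπ.line i hi' with h | ⟨ψ, σ, h1, h2, h3⟩ | ⟨j, l, hj, hl, h⟩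
    · rcases hH _ h with h | h
      · exact Or.inl h
      · exact Or.inr (Or.inl h)
    · exact Or.inr (Or.inl ⟨ψ, fun i => sb s (σ i), h1.trans hk, fun v hv => h2 _ (resp_sb s hv), by rw [h3, sb_inst]⟩)
    · refine Or.inr (Or.inr ⟨j, l, hj, hl, ?_⟩)
      rw [List.getElem_map, List.getElem_map, h]
      rfl
  · obtain ⟨h, A, e⟩ := hπ.last
    exact ⟨by simpa using h, sb s A, by rw [List.getLast_map, e]; rfl⟩

end Subst

theorem few_mono {V : Type} {t t' : ℕ} (h : t ≤ t') : ∀ (l : ℕ) (A : Fo V), Few t l A → Few t' l A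
  | 0, _, hA => hA
  | l + 1, A, hA => by
    obtain ⟨Γ, hf, hc, ho, hg⟩ := hA
    exact ⟨Γ, hf, hc.trans h, ho, fun a n f hG i => (hg a n f hG i).imp id (few_mono h l _)⟩

section Blocks

variable (a N : ℕ)

/-- the point of which `x` is a copy -/
def pt (x : Fin (a * N)) : Fin N := (finProdFinEquiv.symm x).2

/-- all the copies of the points of `B` -/
def blk (B : Finset (Fin N)) : Finset (Fin (a * N)) := (Finset.univ ×ˢ B).map finProdFinEquiv.toEmbedding

theorem mem_blk {B : Finset (Fin N)} {x : Fin (a * N)} : x ∈ blk a N B ↔ pt a N x ∈ B := by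
  unfold blk pt
  rw [Finset.mem_map_equiv]
  simp

theorem card_blk (B : Finset (Fin N)) : (blk a N B).card = a * B.card := by
  unfold blk
  rw [Finset.card_map, Finset.card_product, Finset.card_univ, Fintype.card_fin]

theorem blk_inj (ha : 1 ≤ a) {B C : Finset (Fin N)} (h : blk a N B = blk a N C) : B = C := by
  ext y
  have h1 : pt a N (finProdFinEquiv (⟨0, ha⟩, y)) = y := by simp [pt]
  rw [← h1, ← mem_blk, ← mem_blk, h]

open scoped Classical in
/-- the substitution -/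
noncomputable def sv (B : Finset (Fin (a * N))) : Fo (Finset (Fin N)) :=
  if h : ∃ B', blk a N B' = B then .var h.choose else .neg (.imp (.var ∅) (.var ∅))

theorem sv_blk (ha : 1 ≤ a) (B : Finset (Fin N)) : sv a N (blk a N B) = .var B := by
  have h : ∃ B', blk a N B' = blk a N B := ⟨B, rfl⟩
  unfold sv
  rw [dif_pos h, blk_inj a N ha h.choose_spec]

theorem sv_cases (B : Finset (Fin (a * N))) :
    (∃ B', blk a N B' = B ∧ sv a N B = .var B') ∨ sv a N B = .neg (.imp (.var ∅) (.var ∅)) := by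
  unfold sv
  by_cases h : ∃ B', blk a N B' = B
  · exact Or.inl ⟨h.choose, h.choose_spec, by rw [dif_pos h]⟩
  · exact Or.inr (by rw [dif_neg h])

theorem sv_outer (B : Finset (Fin (a * N))) : (sv a N B).outer = ∅ := by
  rcases sv_cases a N B with ⟨B', -, h⟩ | h <;> rw [h] <;> simp [Fo.outer]

theorem sv_dep (B : Finset (Fin (a * N))) : (sv a N B).dep ≤ 2 := by
  rcases sv_cases a N B with ⟨B', -, h⟩ | h <;> rw [h] <;> simp [Fo.dep]

theorem sv_subs (v : Finset (Fin (a * N))) : ∀ B ∈ (sv a N v).subs, B = sv a N v ∨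
    B ∈ ({.imp (.var ∅) (.var ∅), .var ∅} : Set (Fo (Finset (Fin N)))) := by
  intro B hB
  rcases sv_cases a N v with ⟨B', -, h⟩ | h
  · rw [h] at hB ⊢
    simp only [Fo.subs, List.mem_singleton] at hB
    exact Or.inl hB
  · rw [h] at hB ⊢
    simp only [Fo.subs, List.mem_cons, List.mem_append, List.not_mem_nil, or_false] at hB
    rcases hB with h | h | h | h
    · exact Or.inl h
    · exact Or.inr (Or.inl h)
    · exact Or.inr (Or.inr h)
    · exact Or.inr (Or.inr h)

theorem hyp_sb {p k : ℕ} (ha : 1 ≤ a) {r : ℕ} (A : Fo (Finset (Fin (a * N)))) (hA : A ∈ Count (a * r) (a * N)) :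
    sb (sv a N) A ∈ Count r N ∨ ∃ (ψ : Fm ℕ) (σ : ℕ → Fo (Finset (Fin N))), ψ.len ≤ k + 7 ∧
      (∀ v : Fo (Finset (Fin N)) → Bool, Resp p v → ψ.eval (fun n => v (σ n)) = true) ∧
      sb (sv a N) A = inst σ ψ := by
  rcases hA with ⟨x, B, C, hB, hC, hBC, rfl⟩ | ⟨x, l, B, rfl, hl⟩
  · rcases sv_cases a N B with ⟨B', hB', h1⟩ | h1
    · rcases sv_cases a N C with ⟨C', hC', h2⟩ | h2
      · left
        refine Or.inl ⟨pt a N x, B', C', ?_, ?_, ?_, ?_⟩
        · rw [← mem_blk, hB']; exact hB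
        · rw [← mem_blk, hC']; exact hC
        · rintro rfl
          exact hBC (hB'.symm.trans hC')
        · simp only [sb, h1, h2]
      · right
        refine ⟨.imp (.var 0) (.neg (.neg (.imp (.var 1) (.var 1)))), fun i => if i = 0 then .var B' else .var ∅, ?_, ?_, ?_⟩
        · simp only [Fm.len]; omega
        · intro v _
          simp [Fm.eval]
        · simp [sb, h1, h2, inst]
    · right
      refine ⟨.imp (.neg (.imp (.var 1) (.var 1))) (.neg (.var 0)), fun i => if i = 0 then sv a N C else .var ∅, ?_, ?_, ?_⟩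
      · simp only [Fm.len]; omega
      · intro v _
        simp [Fm.eval]
      · simp [sb, h1, inst]
  · left
    refine Or.inr ⟨pt a N x, l.map (sb (sv a N)), sb (sv a N) B, sb_orAll _ _ _, ?_⟩
    intro e he hx
    have h := hl (blk a N e) (by rw [card_blk, he]) (by rw [mem_blk]; exact hx)
    have h1 : sb (sv a N) (.var (blk a N e)) ∈ (B :: l).map (sb (sv a N)) := List.mem_map_of_mem h
    simpa only [sb, sv_blk a N ha, List.map_cons] using h1

end Blocks

theorem subs_finite {V : Type} (π : List (Fo V)) : {B : Fo V | ∃ A ∈ π, B ∈ A.subs}.Finite := by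
  have : {B : Fo V | ∃ A ∈ π, B ∈ A.subs} = {B | B ∈ π.flatMap fun A => A.subs} := by
    ext B; simp
  rw [this]
  exact List.finite_toSet _

/-- Blocks of size `a r`, `a N` points: the bound of `count_gates` for blocks of size `r`, `N` points. Here `p` may
divide `a`. -/
theorem count_blocks {a r d k l p e t N : ℕ} (ha : 1 ≤ a) (hr : 2 ≤ r) (hk : 1 ≤ k) (hp : p.Prime) (hpr : ¬ p ∣ r)
    (he : 1 ≤ e) (ht : 1 ≤ t)
    (hN : ((k + 10) * (r * p ^ e * (t + 1)) ^ (l + 11)) ^ (2 * r ^ (2 * (d + 2))) ≤ N)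
    (π : List (Fo (Finset (Fin (a * N))))) (hπ : IsRef (p ^ e) k (Count (a * r) (a * N)) π)
    (hline : ∀ A ∈ π, (∀ B ∈ A.subs, B.dep ≤ d) ∧ Few t l A) : 2 ^ t ≤ {B | ∃ A ∈ π, B ∈ A.subs}.ncard := by
  have hout := sv_outer a N
  have hE := sv_subs a N
  set E : Set (Fo (Finset (Fin N))) := {.imp (.var ∅) (.var ∅), .var ∅} with hEdef
  have hEf : E.Finite := by rw [hEdef]; exact Set.toFinite _
  have hEc : E.ncard ≤ 2 := by rw [hEdef]; exact (Set.ncard_insert_le _ _).trans (by simp)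
  have h1 := Pool.Agent.H67.RG.count_gates (d := d + 2) (k := k + 7) (l := l) (t := t + 1) hr (by omega) (by omega) hp hpr he
    (by omega) hN (π.map (sb (sv a N)))
    (ref_sb (sv a N) (by omega) (fun A hA => hyp_sb a N ha A hA) hπ)
    (by
      intro A' hA'
      obtain ⟨A, hA, rfl⟩ := List.mem_map.1 hA'
      refine ⟨?_, few_sb _ hout l _ (few_mono (by omega) l _ (hline A hA).2)⟩
      intro B hB
      rcases sb_subs (sv a N) hE A B hB with ⟨C, hC, rfl⟩ | h
      · have := sb_dep (sv a N) (sv_dep a N) C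
        have := (hline A hA).1 C hC
        omega
      · rw [hEdef] at h
        rcases h with h | h <;> rw [h] <;> simp [Fo.dep])
  have h2 : {B | ∃ A ∈ π.map (sb (sv a N)), B ∈ A.subs} ⊆ sb (sv a N) '' {B | ∃ A ∈ π, B ∈ A.subs} ∪ E := by
    rintro B ⟨A', hA', hB⟩
    obtain ⟨A, hA, rfl⟩ := List.mem_map.1 hA'
    rcases sb_subs (sv a N) hE A B hB with ⟨C, hC, rfl⟩ | h
    · exact Or.inl ⟨C, ⟨A, hA, hC⟩, rfl⟩
    · exact Or.inr h
  have hfin := subs_finite π
  have h3 := Set.ncard_le_ncard h2 ((hfin.image _).union hEf)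
  have h4 := Set.ncard_union_le (sb (sv a N) '' {B | ∃ A ∈ π, B ∈ A.subs}) E
  have h5 : (sb (sv a N) '' {B | ∃ A ∈ π, B ∈ A.subs}).ncard ≤ {B | ∃ A ∈ π, B ∈ A.subs}.ncard := Set.ncard_image_le hfin
  have h6 : 2 ^ (t + 1) = 2 ^ t + 2 ^ t := by rw [pow_succ]; ring
  have h7 : 2 ≤ 2 ^ t := by
    calc 2 = 2 ^ 1 := rfl
      _ ≤ 2 ^ t := Nat.pow_le_pow_right (by norm_num) ht
  omega

/-- The hard side of the dichotomy: let `g` divide `r` and `N`, let `p` not divide `r / g` and `r` not divide `N`. Then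
for every `m = p ^ e` every refutation of the counting principle for `N` points and blocks of size `r` with few
`MOD_m` gates has at least `2 ^ t` different subformulas. -/
theorem count_div {g r d k l p e t N : ℕ} (hr : 1 ≤ r) (hrN : ¬ r ∣ N) (hk : 1 ≤ k) (hp : p.Prime) (he : 1 ≤ e)
    (hgr : g ∣ r) (hpr : ¬ p ∣ r / g) (hg : g ∣ N) (ht : 1 ≤ t)
    (hN : ((k + 10) * (r * p ^ e * (t + 1)) ^ (l + 11)) ^ (2 * r ^ (2 * (d + 2))) ≤ N)
    (π : List (Fo (Finset (Fin N)))) (hπ : IsRef (p ^ e) k (Count r N) π)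
    (hline : ∀ A ∈ π, (∀ B ∈ A.subs, B.dep ≤ d) ∧ Few t l A) : 2 ^ t ≤ {B | ∃ A ∈ π, B ∈ A.subs}.ncard := by
  have hg1 : 1 ≤ g := Nat.pos_of_dvd_of_pos hgr hr
  obtain ⟨r', hr'⟩ := hgr
  have hgr : g ≤ r := by
    rw [hr']
    rcases Nat.eq_zero_or_pos r' with h | h
    · rw [h] at hr'; omega
    · exact Nat.le_mul_of_pos_right _ h
  obtain ⟨N', rfl⟩ := hg
  have hrr : r / g = r' := by rw [hr']; exact Nat.mul_div_cancel_left _ hg1
  rw [hrr] at hpr
  have hr'1 : 1 ≤ r' := by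
    rcases Nat.eq_zero_or_pos r' with h | h
    · rw [h] at hr'; omega
    · exact h
  have hr'2 : 2 ≤ r' := by
    by_contra h
    have h1 : r' = 1 := by omega
    apply hrN
    rw [hr', h1, mul_one]
    exact Dvd.intro _ rfl
  have hr'r : r' ≤ r := by rw [hr']; exact Nat.le_mul_of_pos_left _ hg1
  set X := (k + 10) * (r * p ^ e * (t + 1)) ^ (l + 11) with hX
  have hm : 1 ≤ p ^ e := Nat.one_le_pow _ _ hp.pos
  have hrX : r ≤ X := by
    have h1 : r ≤ r * p ^ e * (t + 1) := by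
      rw [mul_assoc]
      exact Nat.le_mul_of_pos_right _ (Nat.mul_pos hm (by omega))
    have h2 : r * p ^ e * (t + 1) ≤ (r * p ^ e * (t + 1)) ^ (l + 11) := Nat.le_self_pow (by omega) _
    have h3 : (r * p ^ e * (t + 1)) ^ (l + 11) ≤ X := Nat.le_mul_of_pos_left _ (by omega)
    omega
  have hX1 : 1 ≤ X := by omega
  set Y := (k + 10) * (r' * p ^ e * (t + 1)) ^ (l + 11) with hY
  have hYX : Y ≤ X := by
    rw [hX, hY]; gcongr
  have hmain : Y ^ (2 * r' ^ (2 * (d + 2))) ≤ N' := by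
    rcases Nat.lt_or_ge g 2 with h | h
    · have hg2 : g = 1 := by omega
      have hrr' : r = r' := by rw [hr', hg2, one_mul]
      rw [hg2, one_mul] at hN
      calc Y ^ (2 * r' ^ (2 * (d + 2))) ≤ X ^ (2 * r' ^ (2 * (d + 2))) := Nat.pow_le_pow_left hYX _
        _ = X ^ (2 * r ^ (2 * (d + 2))) := by rw [← hrr']
        _ ≤ N' := hN
    · have h1 : r' < r := by
        rw [hr']
        nlinarith
      have h2 : r' ^ (2 * (d + 2)) < r ^ (2 * (d + 2)) := Nat.pow_lt_pow_left h1 (by omega)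
      have h3 : g * X ^ (2 * r' ^ (2 * (d + 2))) ≤ g * N' := by
        calc g * X ^ (2 * r' ^ (2 * (d + 2))) ≤ X * X ^ (2 * r' ^ (2 * (d + 2))) := Nat.mul_le_mul_right _ (hgr.trans hrX)
          _ = X ^ (2 * r' ^ (2 * (d + 2)) + 1) := by rw [pow_succ]; ring
          _ ≤ X ^ (2 * r ^ (2 * (d + 2))) := Nat.pow_le_pow_right hX1 (by omega)
          _ ≤ g * N' := hN
      calc Y ^ (2 * r' ^ (2 * (d + 2))) ≤ X ^ (2 * r' ^ (2 * (d + 2))) := Nat.pow_le_pow_left hYX _
        _ ≤ N' := Nat.le_of_mul_le_mul_left h3 hg1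
  have hπ' : IsRef (p ^ e) k (Count (g * r') (g * N')) π := by rw [← hr']; exact hπ
  exact count_blocks hg1 hr'2 hk hp hpr he ht hmain π hπ' hline

/-- the case `g = gcd(r, m)` -/
theorem count_hard {r d k l p e t N : ℕ} (hr : 1 ≤ r) (hrN : ¬ r ∣ N) (hk : 1 ≤ k) (hp : p.Prime) (he : 1 ≤ e)
    (hpr : ¬ p ∣ r / r.gcd (p ^ e)) (hg : r.gcd (p ^ e) ∣ N) (ht : 1 ≤ t)
    (hN : ((k + 10) * (r * p ^ e * (t + 1)) ^ (l + 11)) ^ (2 * r ^ (2 * (d + 2))) ≤ N)
    (π : List (Fo (Finset (Fin N)))) (hπ : IsRef (p ^ e) k (Count r N) π)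
    (hline : ∀ A ∈ π, (∀ B ∈ A.subs, B.dep ≤ d) ∧ Few t l A) : 2 ^ t ≤ {B | ∃ A ∈ π, B ∈ A.subs}.ncard :=
  count_div hr hrN hk hp he (Nat.gcd_dvd_left r (p ^ e)) hpr hg ht hN π hπ hline

/-- the case where `g` is the `p`-part of `r` -/
theorem count_part {r d k l p e t N : ℕ} (hr : 1 ≤ r) (hrN : ¬ r ∣ N) (hk : 1 ≤ k) (hp : p.Prime) (he : 1 ≤ e)
    (hg : p ^ r.factorization p ∣ N) (ht : 1 ≤ t)
    (hN : ((k + 10) * (r * p ^ e * (t + 1)) ^ (l + 11)) ^ (2 * r ^ (2 * (d + 2))) ≤ N)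
    (π : List (Fo (Finset (Fin N)))) (hπ : IsRef (p ^ e) k (Count r N) π)
    (hline : ∀ A ∈ π, (∀ B ∈ A.subs, B.dep ≤ d) ∧ Few t l A) : 2 ^ t ≤ {B | ∃ A ∈ π, B ∈ A.subs}.ncard :=
  count_div hr hrN hk hp he (Nat.ordProj_dvd r p) (Nat.not_dvd_ordCompl hp (by omega)) hg ht hN π hπ hline

end Pool.Agent.H93.RG.Blk
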