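import Pool.Agent.H93.RG.Mat
import Pool.Agent.H14.RG.Fol

/-!
# FG for blocks of size `r`: following the canonical process (port of H3/Ac/Fol)
-/

set_option autoImplicit false
set_option linter.unusedSectionVars false

namespace Pool.Agent.H93.RG

open Finset
open Pool.Agent.H3.Frg hiding ind
open Pool.Agent.H3.Ac (ldep SubCl)
open Pool.Agent.H67.FG (ind Alg Fo tr orAll orF IsRef Few)

variable {V : Type} [Fintype V] [DecidableEq V] {r : ℕ}

theorem follow (hr : 1 ≤ r) (F : List (Finset (Finset V))) (w k : ℕ) (hF : ∀ t ∈ F, IsM r t ∧ t.card ≤ w)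
    {ρ M : Finset (Finset V)} (hM : IsM r M) (hρM : ρ ⊆ M) (hgood : ¬ Bad r F k ρ)
    (hroom : r * M.card + r * k + r * (r * w) ≤ Fintype.card V) :
    ∃ M' π, IsM r M' ∧ M ⊆ M' ∧ ρ ⊆ π ∧ π ⊆ M' ∧ M'.card ≤ M.card + k ∧ π.card ≤ ρ.card + k ∧
      (fst r F π = none ∨ ∃ t, fst r F π = some t ∧ t ⊆ π) :=
  H14.RG.follow hr F w k hF hM hρM hgood hroom

end Pool.Agent.H93.RG
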