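import Pool.Agent.H93.RG.Defs
import Pool.Agent.H6.RG.Mat

/-!
# FG for blocks of size `r`: partial partitions (port of H3/Ac/Mat)
-/

set_option autoImplicit false
set_option linter.unusedSectionVars false

namespace Pool.Agent.H93.RG

open Finset
open Pool.Agent.H3.Frg hiding ind
open Pool.Agent.H3.Ac (ldep SubCl)
open Pool.Agent.H67.FG (ind Alg Fo tr orAll orF IsRef Few)

variable {V : Type} [Fintype V] [DecidableEq V] {r : ℕ}

theorem isM_sub {M M' : Finset (Finset V)} (h : IsM r M') (hs : M ⊆ M') : IsM r M :=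
  H6.RG.isM_sub h hs

theorem isM_empty : IsM r (∅ : Finset (Finset V)) :=
  H6.RG.isM_empty

theorem mem_cov {M : Finset (Finset V)} {v : V} : v ∈ cov M ↔ ∃ e ∈ M, v ∈ e :=
  H6.RG.mem_cov

theorem cov_mono {M M' : Finset (Finset V)} (h : M ⊆ M') : cov M ⊆ cov M' :=
  H6.RG.cov_mono h

theorem cov_union (M N : Finset (Finset V)) : cov (M ∪ N) = cov M ∪ cov N :=
  H6.RG.cov_union M N

theorem card_cov {M : Finset (Finset V)} (h : IsM r M) : (cov M).card = r * M.card :=
  H6.RG.card_cov h

theorem isM_union {M N : Finset (Finset V)} (hM : IsM r M) (hN : IsM r N)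
    (h : Disjoint (cov M) (cov N)) : IsM r (M ∪ N) :=
  H6.RG.isM_union hM hN h

theorem isM_singleton {e : Finset V} (h : e.card = r) : IsM r ({e} : Finset (Finset V)) :=
  H6.RG.isM_singleton h

/-- adding a block of uncovered points -/
theorem isM_insert (hr : 1 ≤ r) {M : Finset (Finset V)} (hM : IsM r M) {e : Finset V} (h : e.card = r)
    (he : Disjoint e (cov M)) : IsM r (insert e M) ∧ e ∉ M ∧ (insert e M).card = M.card + 1 :=
  H6.RG.isM_insert hr hM h he

/-- partial partitions can be extended to cover a given set -/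
theorem cover (hr : 1 ≤ r) (N : Finset V) {M : Finset (Finset V)} (hM : IsM r M)
    (hroom : r * M.card + r * N.card ≤ Fintype.card V) :
    ∃ M', IsM r M' ∧ M ⊆ M' ∧ N ⊆ cov M' ∧ M'.card ≤ M.card + N.card ∧
      ∀ e ∈ M', e ∉ M → ∃ v ∈ e, v ∈ N :=
  H6.RG.cover hr N hM hroom

end Pool.Agent.H93.RG
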