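import Pool.Agent.H93.RG.Defs
import Pool.Agent.H81.RG.Num

/-!
# FG for blocks of size `r`: parameters
-/

set_option autoImplicit false
set_option linter.unusedSectionVars false

namespace Pool.Agent.H93.RG

open Finset
open Pool.Agent.H3.Frg hiding ind
open Pool.Agent.H3.Ac (ldep SubCl)
open Pool.Agent.H67.FG (ind Alg Fo tr orAll orF IsRef Few)

/-- the first point set is polynomial in `m t` -/
theorem num (r d k l : ℕ) (hr : 2 ≤ r) : ∃ C : ℕ, ∀ m t q c : ℕ, 2 ≤ m → 1 ≤ t → c < r →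
    q = r * (1000 * r * (k + 3) * ((t * m) ^ l * (2 * t + 2) ^ 2)) + 1 →
    lev r (2 * t + 1) (q * (q - 1) * (r - 1) + c) d ≤ (m * t) ^ C :=
  H81.RG.num r d k l hr

end Pool.Agent.H93.RG
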