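import Pool.Agent.H93.RG.Flow

/-!
# FG for blocks of size `r`: degrees of functions on `E → ZMod r`
-/

set_option autoImplicit false
set_option linter.unusedSectionVars false

namespace Pool.Agent.H93.RG

open Finset

section Deg

variable {E : Type} [Fintype E] [DecidableEq E] {F : Type} [Field F] {r : ℕ} [NeZero r]

/-- the character of a vector -/
def chi (ψ : AddChar (ZMod r) F) (s y : E → ZMod r) : F := ∏ e, ψ (s e * y e)

/-- the number of coordinates which are not zero -/
def wt (s : E → ZMod r) : ℕ := (univ.filter fun e => s e ≠ 0).card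

/-- functions of degree at most `D` -/
def Dg (ψ : AddChar (ZMod r) F) (E : Type) [Fintype E] [DecidableEq E] (D : ℕ) :
    Submodule F ((E → ZMod r) → F) :=
  Submodule.span F {f | ∃ s : E → ZMod r, wt s ≤ D ∧ f = chi ψ s}

variable {ψ : AddChar (ZMod r) F}

theorem chi_mem {s : E → ZMod r} {D : ℕ} (h : wt s ≤ D) : chi ψ s ∈ Dg ψ E D :=
  Submodule.subset_span ⟨s, h, rfl⟩

theorem chi_zero : chi ψ (0 : E → ZMod r) = 1 := by
  funext y
  simp [chi]

theorem chi_mul (s t : E → ZMod r) : chi ψ s * chi ψ t = chi ψ (s + t) := by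
  funext y
  simp only [Pi.mul_apply, chi, Pi.add_apply, add_mul, AddChar.map_add_eq_mul]
  rw [prod_mul_distrib]

theorem wt_zero : wt (0 : E → ZMod r) = 0 := by
  simp [wt]

theorem wt_add (s t : E → ZMod r) : wt (s + t) ≤ wt s + wt t := by
  unfold wt
  refine (card_le_card ?_).trans (card_union_le _ _)
  intro e he
  rw [mem_filter] at he
  rw [mem_union, mem_filter, mem_filter]
  by_contra h
  push Not at h
  have h1 : s e = 0 := h.1 (mem_univ _)
  have h3 : t e = 0 := h.2 (mem_univ _)
  exact he.2 (by rw [Pi.add_apply, h1, h3, add_zero])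

theorem wt_neg (s : E → ZMod r) : wt (-s) = wt s := by
  unfold wt
  congr 1
  ext e
  simp

theorem wt_eq_zero {s : E → ZMod r} (h : wt s = 0) : s = 0 := by
  funext e
  unfold wt at h
  rw [card_eq_zero, filter_eq_empty_iff] at h
  have := h (mem_univ e)
  simpa using this

theorem dg_mono {a b : ℕ} (h : a ≤ b) : Dg ψ E a ≤ Dg ψ E b := by
  apply Submodule.span_mono
  rintro f ⟨S, hS, rfl⟩
  exact ⟨S, hS.trans h, rfl⟩

theorem one_mem (D : ℕ) : (1 : (E → ZMod r) → F) ∈ Dg ψ E D := by
  rw [← chi_zero (ψ := ψ) (E := E)]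
  exact chi_mem (by rw [wt_zero]; exact Nat.zero_le _)

theorem dg_mul {a b : ℕ} {f g : (E → ZMod r) → F} (hf : f ∈ Dg ψ E a) (hg : g ∈ Dg ψ E b) :
    f * g ∈ Dg ψ E (a + b) := by
  have h1 : f * g ∈ Dg ψ E a * Dg ψ E b := Submodule.mul_mem_mul hf hg
  unfold Dg at h1
  rw [Submodule.span_mul_span] at h1
  revert h1
  apply SetLike.le_def.1
  rw [Submodule.span_le]
  rintro _ ⟨_, ⟨S, hS, rfl⟩, _, ⟨T, hT, rfl⟩, rfl⟩
  show chi ψ S * chi ψ T ∈ _
  rw [chi_mul]
  exact chi_mem ((wt_add S T).trans (Nat.add_le_add hS hT))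

theorem dg_const (c : F) (D : ℕ) : (fun _ => c : (E → ZMod r) → F) ∈ Dg ψ E D := by
  have h : (fun _ => c : (E → ZMod r) → F) = c • (1 : (E → ZMod r) → F) := by
    funext y
    simp
  rw [h]
  exact Submodule.smul_mem _ _ (one_mem D)

/-- the indicator of one value of one coordinate -/
theorem delta (hψ : ψ.IsPrimitive) (hr : (r : F) ≠ 0) (a b : ZMod r) :
    (if a = b then (1 : F) else 0) = (r : F)⁻¹ * ∑ j : ZMod r, ψ (j * (a - b)) := by
  rw [AddChar.sum_mulShift (a - b) hψ]
  by_cases h : a = b
  · rw [if_pos h, if_pos (sub_eq_zero.2 h), ZMod.card]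
    field_simp
  · rw [if_neg h, if_neg (fun h1 => h (sub_eq_zero.1 h1))]
    simp

theorem chi_single (e : E) (j : ZMod r) (y : E → ZMod r) : chi ψ (Pi.single e j) y = ψ (j * y e) := by
  unfold chi
  rw [Finset.prod_eq_single e]
  · simp
  · intro i _ hi
    simp [Pi.single_eq_of_ne hi]
  · intro h
    exact absurd (mem_univ _) h

theorem wt_single (e : E) (j : ZMod r) : wt (Pi.single e j : E → ZMod r) ≤ 1 := by
  unfold wt
  refine (card_le_card (t := {e}) ?_).trans (by simp)
  intro i hi
  rw [mem_filter] at hi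
  rw [mem_singleton]
  by_contra h
  exact hi.2 (Pi.single_eq_of_ne h _)

/-- a function of the coordinates in `S` -/
theorem dg_junta (hψ : ψ.IsPrimitive) (hr : (r : F) ≠ 0) (S : Finset E) (f : (E → ZMod r) → F)
    (hf : ∀ y y', (∀ e ∈ S, y e = y' e) → f y = f y') : f ∈ Dg ψ E S.card := by
  induction S using Finset.induction_on generalizing f with
  | empty =>
    have : f = fun _ => f (fun _ => 0) := by
      funext y
      exact hf _ _ (by simp)
    rw [this]
    exact dg_const _ _
  | insert e S he ih =>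
    have hd : ∀ b : ZMod r, (fun y => f (Function.update y e b)) ∈ Dg ψ E S.card := by
      intro b
      apply ih
      intro y y' h
      apply hf
      intro i hi
      rcases mem_insert.1 hi with rfl | hi
      · simp
      · have : i ≠ e := fun h => he (h ▸ hi)
        simp [Function.update_of_ne this, h i hi]
    have h1 : f = ∑ b : ZMod r, ((r : F)⁻¹ • ∑ j : ZMod r, (ψ (-(j * b))) • chi ψ (Pi.single e j)) *
        (fun y => f (Function.update y e b)) := by
      funext y
      rw [Finset.sum_apply]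
      have h2 : ∀ b : ZMod r, (((r : F)⁻¹ • ∑ j : ZMod r, (ψ (-(j * b))) • chi ψ (Pi.single e j)) *
          (fun y => f (Function.update y e b))) y = if b = y e then f y else 0 := by
        intro b
        simp only [Pi.mul_apply, Pi.smul_apply, Finset.sum_apply, smul_eq_mul, chi_single]
        have h3 : ∀ j : ZMod r, ψ (-(j * b)) * ψ (j * y e) = ψ (j * (y e - b)) := by
          intro j
          rw [← AddChar.map_add_eq_mul]
          congr 1
          ring
        simp only [h3]
        rw [← delta hψ hr]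
        by_cases h : b = y e
        · rw [if_pos h, if_pos h.symm, one_mul, h, Function.update_eq_self]
        · rw [if_neg h, if_neg (fun h' => h h'.symm), zero_mul]
      rw [Finset.sum_congr rfl fun b _ => h2 b]
      simp
    rw [h1, card_insert_of_notMem he]
    apply Submodule.sum_mem
    intro b _
    rw [add_comm]
    refine dg_mul (Submodule.smul_mem _ _ (Submodule.sum_mem _ fun j _ => Submodule.smul_mem _ _
      (chi_mem (wt_single e j)))) (hd b)

/-- orthogonality -/
theorem sum_chi (hψ : ψ.IsPrimitive) (s : E → ZMod r) :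
    ∑ y : E → ZMod r, chi ψ s y = if s = 0 then (r : F) ^ Fintype.card E else 0 := by
  have h1 : ∑ y : E → ZMod r, chi ψ s y = ∏ e : E, ∑ b : ZMod r, ψ (b * s e) := by
    rw [Finset.prod_univ_sum, Fintype.piFinset_univ]
    apply sum_congr rfl
    intro y _
    unfold chi
    apply prod_congr rfl
    intro e _
    rw [mul_comm]
  rw [h1]
  have h2 : ∀ e : E, ∑ b : ZMod r, ψ (b * s e) = if s e = 0 then (r : F) else 0 := by
    intro e
    rw [AddChar.sum_mulShift (s e) hψ, ZMod.card]
    split_ifs <;> simp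
  rw [prod_congr rfl fun e _ => h2 e]
  by_cases h : s = 0
  · rw [if_pos h]
    subst h
    simp [Finset.card_univ]
  · rw [if_neg h]
    obtain ⟨e, he⟩ : ∃ e, s e ≠ 0 := by
      by_contra hcon
      push Not at hcon
      exact h (funext hcon)
    exact Finset.prod_eq_zero (mem_univ e) (if_neg he)

/-- Fourier coefficient (times a constant) -/
noncomputable def cf (ψ : AddChar (ZMod r) F) (s : E → ZMod r) : ((E → ZMod r) → F) →ₗ[F] F :=
  ∑ y : E → ZMod r, chi ψ (-s) y • LinearMap.proj y

theorem cf_chi (hψ : ψ.IsPrimitive) (s t : E → ZMod r) :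
    cf ψ s (chi ψ t) = if s = t then (r : F) ^ Fintype.card E else 0 := by
  unfold cf
  rw [LinearMap.sum_apply]
  have h1 : ∀ y : E → ZMod r, (chi ψ (-s) y • (LinearMap.proj y : ((E → ZMod r) → F) →ₗ[F] F)) (chi ψ t) =
      chi ψ (t - s) y := by
    intro y
    rw [LinearMap.smul_apply, LinearMap.proj_apply, smul_eq_mul, sub_eq_add_neg, add_comm, ← chi_mul]
    rfl
  rw [sum_congr rfl fun y _ => h1 y, sum_chi hψ]
  by_cases h : s = t
  · rw [if_pos h, if_pos (sub_eq_zero.2 h.symm)]
  · rw [if_neg h, if_neg (fun h' => h (sub_eq_zero.1 h').symm)]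

end Deg

end Pool.Agent.H93.RG
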