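import Pool.Agent.H93.RG.RingA

/-!
# FG for blocks of size `r`: the Tseitin ideal
-/

set_option autoImplicit false
set_option linter.unusedSectionVars false

namespace Pool.Agent.H93.RG

open Finset

section Tse

variable {q : ℕ} {F : Type} [Field F] {r : ℕ} [NeZero r] {ψ : AddChar (ZMod r) F}

/-- the differences of a vector of the vertices along the edges -/
def du (u : Fin q → ZMod r) (e : Ed q) : ZMod r := u e.1.inf - u e.1.sup

theorem du_add (u w : Fin q → ZMod r) : du (u + w) = du u + du w := by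
  funext e
  simp only [du, Pi.add_apply]
  ring

theorem du_neg (u : Fin q → ZMod r) : du (-u) = - du u := by
  funext e
  simp only [du, Pi.neg_apply]
  ring

theorem du_zero : du (0 : Fin q → ZMod r) = 0 := by
  funext e
  simp [du]

/-- the support of a vector of the vertices -/
def sp (u : Fin q → ZMod r) : Finset (Fin q) := univ.filter fun a => u a ≠ 0

theorem mem_sp {u : Fin q → ZMod r} {a : Fin q} : a ∈ sp u ↔ u a ≠ 0 := by
  simp [sp]

theorem sp_add (u w : Fin q → ZMod r) : (sp (u + w)).card ≤ (sp u).card + (sp w).card := by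
  refine (card_le_card ?_).trans (card_union_le _ _)
  intro a ha
  rw [mem_sp] at ha
  rw [mem_union, mem_sp, mem_sp]
  by_contra h
  push Not at h
  exact ha (by rw [Pi.add_apply, h.1, h.2, add_zero])

theorem sp_neg (u : Fin q → ZMod r) : sp (-u) = sp u := by
  ext a
  rw [mem_sp, mem_sp]
  simp

theorem sp_zero : sp (0 : Fin q → ZMod r) = ∅ := by
  ext a
  simp [mem_sp]

theorem du_mk {u : Fin q → ZMod r} {a b : Fin q} (h : ¬ (s(a, b)).IsDiag) :
    du u ⟨s(a, b), h⟩ = if a < b then u a - u b else u b - u a := by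
  unfold du
  have hne : a ≠ b := by simpa using h
  show u (a ⊓ b) - u (a ⊔ b) = _
  split_ifs with hab
  · rw [inf_eq_left.2 hab.le, sup_eq_right.2 hab.le]
  · have hba : b ≤ a := not_lt.1 hab
    rw [inf_eq_right.2 hba, sup_eq_left.2 hba]

theorem du_ne {u : Fin q → ZMod r} {a b : Fin q} (h : ¬ (s(a, b)).IsDiag) :
    du u ⟨s(a, b), h⟩ ≠ 0 ↔ u a ≠ u b := by
  rw [du_mk h]
  split_ifs with hab
  · exact sub_ne_zero
  · rw [sub_ne_zero]
    exact ne_comm

theorem wt_du (u : Fin q → ZMod r) : (sp u).card * (q - (sp u).card) ≤ wt (du u) := by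
  have h1 : (sp u ×ˢ (sp u)ᶜ).card ≤ ((univ.filter fun e : Ed q => du u e ≠ 0).image Subtype.val).card := by
    refine card_le_card_of_injOn (fun p : Fin q × Fin q => s(p.1, p.2)) ?_ ?_
    · intro p hp
      have hp' : p ∈ sp u ×ˢ (sp u)ᶜ := hp
      rw [mem_product, mem_compl] at hp'
      have hne : p.1 ≠ p.2 := fun h => hp'.2 (h ▸ hp'.1)
      have hd : ¬ (s(p.1, p.2)).IsDiag := by simpa using hne
      show s(p.1, p.2) ∈ ((univ.filter fun e : Ed q => du u e ≠ 0).image Subtype.val : Set (Sym2 (Fin q)))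
      rw [mem_coe, mem_image]
      refine ⟨⟨s(p.1, p.2), hd⟩, mem_filter.2 ⟨mem_univ _, (du_ne hd).2 ?_⟩, rfl⟩
      rw [mem_sp, mem_sp] at hp'
      intro h
      exact hp'.2 (h ▸ hp'.1)
    · intro p hp p' hp' h
      have hp1 : p ∈ sp u ×ˢ (sp u)ᶜ := hp
      have hp2 : p' ∈ sp u ×ˢ (sp u)ᶜ := hp'
      rw [mem_product, mem_compl] at hp1 hp2
      have h' : s(p.1, p.2) = s(p'.1, p'.2) := h
      rw [Sym2.eq_iff] at h'
      rcases h' with h' | h'
      · exact Prod.ext h'.1 h'.2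
      · exact absurd (h'.2 ▸ hp2.1) hp1.2
  rw [card_product, card_compl, Fintype.card_fin] at h1
  exact h1.trans card_image_le

theorem du_eq_zero {u : Fin q → ZMod r} (hu : (sp u).card < q) (h : du u = 0) : u = 0 := by
  have h1 := wt_du u
  rw [h, wt_zero] at h1
  have h2 : (sp u).card = 0 := by
    by_contra h0
    have : 0 < (sp u).card * (q - (sp u).card) := Nat.mul_pos (by omega) (by omega)
    omega
  funext a
  by_contra ha
  have h3 : a ∈ sp u := mem_sp.2 ha
  rw [card_eq_zero] at h2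
  rw [h2] at h3
  exact absurd h3 (notMem_empty _)

theorem du_inj {u w : Fin q → ZMod r} (hu : 2 * (sp u).card < q) (hw : 2 * (sp w).card < q)
    (h : du u = du w) : u = w := by
  have h1 : du (u + -w) = 0 := by
    rw [du_add, du_neg, h, add_neg_cancel]
  have h2 := sp_add u (-w)
  rw [sp_neg] at h2
  have h3 := du_eq_zero (by omega) h1
  have h4 : u - w = 0 := by rw [sub_eq_add_neg]; exact h3
  exact sub_eq_zero.1 h4

/-- the phase of a vector of the vertices -/
def ph (ψ : AddChar (ZMod r) F) (c : ℕ) (u : Fin q → ZMod r) : F := ψ (-(∑ a, u a * ch r c a))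

theorem ph_add (c : ℕ) (u w : Fin q → ZMod r) : ph ψ c (u + w) = ph ψ c u * ph ψ c w := by
  unfold ph
  rw [← AddChar.map_add_eq_mul]
  congr 1
  simp only [Pi.add_apply, add_mul, sum_add_distrib]
  ring

theorem ph_zero (c : ℕ) : ph ψ c (0 : Fin q → ZMod r) = 1 := by
  simp [ph]

theorem ph_ne_zero (c : ℕ) (u : Fin q → ZMod r) : ph ψ c u ≠ 0 := by
  intro h
  have h1 := ph_add (ψ := ψ) c u (-u)
  rw [add_neg_cancel, ph_zero, h, zero_mul] at h1
  exact one_ne_zero h1

/-- the ideal up to degree `k` -/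
def Zk (ψ : AddChar (ZMod r) F) (q c k : ℕ) : Submodule F ((Ed q → ZMod r) → F) :=
  Submodule.span F {f | ∃ (s : Ed q → ZMod r) (u : Fin q → ZMod r), wt s ≤ k ∧
    wt (s + du u) ≤ k ∧ 2 * (sp u).card < q ∧
    f = chi ψ s - ph ψ c u • chi ψ (s + du u)}

variable {c : ℕ}

theorem zk_mono {a b : ℕ} (h : a ≤ b) : Zk ψ q c a ≤ Zk ψ q c b := by
  apply Submodule.span_mono
  rintro f ⟨S, U, h1, h2, h3, rfl⟩
  exact ⟨S, U, h1.trans h, h2.trans h, h3, rfl⟩

theorem zk_mul {a b : ℕ} {f g : (Ed q → ZMod r) → F} (hf : f ∈ Zk ψ q c a) (hg : g ∈ Dg ψ (Ed q) b) :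
    f * g ∈ Zk ψ q c (a + b) := by
  have h1 : f * g ∈ Zk ψ q c a * Dg ψ (Ed q) b := Submodule.mul_mem_mul hf hg
  unfold Zk Dg at h1
  rw [Submodule.span_mul_span] at h1
  revert h1
  apply SetLike.le_def.1
  rw [Submodule.span_le]
  rintro _ ⟨_, ⟨s, u, h1, h2, h3, rfl⟩, _, ⟨t, ht, rfl⟩, rfl⟩
  show (chi ψ s - ph ψ c u • chi ψ (s + du u)) * chi ψ t ∈ _
  rw [sub_mul, smul_mul_assoc, chi_mul, chi_mul]
  apply Submodule.subset_span
  refine ⟨s + t, u, (wt_add s t).trans (Nat.add_le_add h1 ht), ?_, h3, ?_⟩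
  · have : s + t + du u = (s + du u) + t := by abel
    rw [this]
    exact (wt_add _ _).trans (Nat.add_le_add h2 ht)
  · have : s + t + du u = (s + du u) + t := by abel
    rw [this]

theorem num_third {q k a : ℕ} (hk : 9 * k < q * q) (ha : 2 * a < q) (h : a * (q - a) ≤ 2 * k) :
    3 * a < q := by
  by_contra h2
  obtain ⟨r, rfl⟩ : ∃ r, q = a + r := ⟨q - a, by omega⟩
  have h3 : a + r - a = r := by omega
  rw [h3] at h
  nlinarith

theorem num_two {q k a : ℕ} (hk : 9 * k < q * q) (ha : 3 * a < 2 * q) (h : a * (q - a) ≤ 2 * k) :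
    3 * a < q := by
  by_contra h2
  obtain ⟨r, rfl⟩ : ∃ r, q = a + r := ⟨q - a, by omega⟩
  have h3 : a + r - a = r := by omega
  rw [h3] at h
  nlinarith

theorem wt_of_diff {k : ℕ} {s t : Ed q → ZMod r} {u : Fin q → ZMod r} (hs : wt s ≤ k)
    (ht : wt t ≤ k) (h : t = s + du u) : wt (du u) ≤ 2 * k := by
  have h2 : du u = t + -s := by
    rw [h]
    abel
  rw [h2]
  refine (wt_add _ _).trans ?_
  rw [wt_neg]
  omega

/-- transitivity -/
theorem shift_two {k : ℕ} (hk : 9 * k < q * q) {s t x : Ed q → ZMod r} {u w : Fin q → ZMod r}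
    (hs : wt s ≤ k) (ht : wt t ≤ k) (hx : wt x ≤ k) (hu : 2 * (sp u).card < q)
    (hw : 2 * (sp w).card < q) (h1 : t = s + du u) (h2 : x = t + du w) :
    2 * (sp (u + w)).card < q ∧ x = s + du (u + w) := by
  have h3 := num_third hk hu ((wt_du u).trans (wt_of_diff hs ht h1))
  have h4 := num_third hk hw ((wt_du w).trans (wt_of_diff ht hx h2))
  have h5 : x = s + du (u + w) := by
    rw [h2, h1, du_add, add_assoc]
  have h6 := sp_add u w
  have h7 := num_two hk (a := (sp (u + w)).card) (by omega)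
    ((wt_du _).trans (wt_of_diff hs hx h5))
  exact ⟨by omega, h5⟩

open scoped Classical in
/-- the class of `s` -/
noncomputable def cls (k : ℕ) (s : Ed q → ZMod r) : Finset (Ed q → ZMod r) :=
  univ.filter fun t => wt t ≤ k ∧ ∃ u : Fin q → ZMod r, 2 * (sp u).card < q ∧ t = s + du u

theorem mem_cls {k : ℕ} {s t : Ed q → ZMod r} :
    t ∈ cls k s ↔ wt t ≤ k ∧ ∃ u : Fin q → ZMod r, 2 * (sp u).card < q ∧ t = s + du u := by
  unfold cls
  simp

theorem back {s t : Ed q → ZMod r} {u : Fin q → ZMod r} (h : t = s + du u) : s = t + du (-u) := by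
  rw [h, du_neg]
  abel

theorem cls_eq {k : ℕ} (hk : 9 * k < q * q) {s t : Ed q → ZMod r} {u : Fin q → ZMod r}
    (hs : wt s ≤ k) (ht : wt t ≤ k) (hu : 2 * (sp u).card < q) (h1 : t = s + du u) :
    cls k s = cls k t := by
  have h1' := back h1
  have hu' : 2 * (sp (-u)).card < q := by rw [sp_neg]; exact hu
  ext x
  rw [mem_cls, mem_cls]
  constructor
  · rintro ⟨hx, w, hw, h2⟩
    obtain ⟨h3, h4⟩ := shift_two hk ht hs hx hu' hw h1' h2
    exact ⟨hx, _, h3, h4⟩
  · rintro ⟨hx, w, hw, h2⟩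
    obtain ⟨h3, h4⟩ := shift_two hk hs ht hx hu hw h1 h2
    exact ⟨hx, _, h3, h4⟩

theorem self_mem_cls {k : ℕ} (hq : 0 < q) {s : Ed q → ZMod r} (hs : wt s ≤ k) : s ∈ cls k s := by
  rw [mem_cls]
  refine ⟨hs, 0, ?_, ?_⟩
  · rw [sp_zero]
    simpa using hq
  · rw [du_zero, add_zero]

open scoped Classical in
/-- a member of least weight -/
noncomputable def rep {q r : ℕ} (C : Finset (Ed q → ZMod r)) : Ed q → ZMod r :=
  if h : C.Nonempty then Classical.choose (exists_min_image C wt h) else 0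

theorem rep_spec {C : Finset (Ed q → ZMod r)} (h : C.Nonempty) :
    rep C ∈ C ∧ ∀ t ∈ C, wt (rep C) ≤ wt t := by
  unfold rep
  rw [dif_pos h]
  exact Classical.choose_spec (exists_min_image C wt h)

open scoped Classical in
/-- the phase of a difference -/
noncomputable def lam (ψ : AddChar (ZMod r) F) (c : ℕ) (d : Ed q → ZMod r) : F :=
  if h : ∃ u : Fin q → ZMod r, 2 * (sp u).card < q ∧ du u = d then ph ψ c (Classical.choose h) else 0

theorem lam_du {u : Fin q → ZMod r} (hu : 2 * (sp u).card < q) : lam ψ c (du u) = ph ψ c u := by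
  unfold lam
  have h : ∃ w : Fin q → ZMod r, 2 * (sp w).card < q ∧ du w = du u := ⟨u, hu, rfl⟩
  rw [dif_pos h]
  have h1 := Classical.choose_spec h
  rw [du_inj h1.1 hu h1.2]

open scoped Classical in
/-- the reduction to representatives -/
noncomputable def Rk (ψ : AddChar (ZMod r) F) (q c k : ℕ) :
    ((Ed q → ZMod r) → F) →ₗ[F] ((Ed q → ZMod r) → F) :=
  ∑ s ∈ (univ : Finset (Ed q → ZMod r)).filter (fun s => wt s ≤ k),
    LinearMap.smulRight (cf ψ s)
      ((lam ψ c (rep (cls k s) - s) * ((r : F) ^ Fintype.card (Ed q))⁻¹) •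
        chi ψ (rep (cls k s)))

theorem Rk_chi (hψ : ψ.IsPrimitive) (hr : (r : F) ≠ 0) {k : ℕ} {s : Ed q → ZMod r} (hs : wt s ≤ k) :
    Rk ψ q c k (chi ψ s) = lam ψ c (rep (cls k s) - s) • chi ψ (rep (cls k s)) := by
  classical
  unfold Rk
  rw [LinearMap.sum_apply]
  rw [Finset.sum_eq_single s]
  · rw [LinearMap.smulRight_apply, cf_chi hψ, if_pos rfl, smul_smul]
    congr 1
    have h3 : (r : F) ^ Fintype.card (Ed q) ≠ 0 := pow_ne_zero _ hr
    field_simp
  · intro t _ ht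
    rw [LinearMap.smulRight_apply, cf_chi hψ, if_neg ht, zero_smul]
  · intro h
    exact absurd (mem_filter.2 ⟨mem_univ s, hs⟩) h

theorem rep_du {k : ℕ} (hq : 0 < q) {s : Ed q → ZMod r} (hs : wt s ≤ k) :
    ∃ w : Fin q → ZMod r, 2 * (sp w).card < q ∧ rep (cls k s) = s + du w ∧ wt (rep (cls k s)) ≤ k ∧
      wt (rep (cls k s)) ≤ wt s := by
  have hne : (cls k s).Nonempty := ⟨s, self_mem_cls hq hs⟩
  obtain ⟨h6, h7⟩ := rep_spec hne
  have h8 := h7 s (self_mem_cls hq hs)
  rw [mem_cls] at h6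
  obtain ⟨h9, w, h10, h11⟩ := h6
  exact ⟨w, h10, h11, h9, h8⟩

theorem Rk_zero (hψ : ψ.IsPrimitive) (hr : (r : F) ≠ 0) {k : ℕ} (hk : 9 * k < q * q) (hq : 0 < q)
    {f : (Ed q → ZMod r) → F} (hf : f ∈ Zk ψ q c k) : Rk ψ q c k f = 0 := by
  have h1 : Zk ψ q c k ≤ LinearMap.ker (Rk ψ q c k) := by
    unfold Zk
    rw [Submodule.span_le]
    rintro _ ⟨s, u, h3, h4, h5, rfl⟩
    show _ ∈ LinearMap.ker _
    rw [LinearMap.mem_ker, map_sub, map_smul, Rk_chi hψ hr h3, Rk_chi hψ hr h4]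
    have hc := cls_eq hk h3 h4 h5 rfl
    rw [← hc]
    obtain ⟨w, h8, h9, h7, _⟩ := rep_du (k := k) hq h3
    have h10 : rep (cls k s) - s = du w := by
      rw [h9]
      abel
    have hu' : 2 * (sp (-u)).card < q := by rw [sp_neg]; exact h5
    obtain ⟨h12, h13⟩ := shift_two hk h4 h3 h7 hu' h8 (back rfl) h9
    have h14 : rep (cls k s) - (s + du u) = du (-u + w) := by
      nth_rewrite 1 [h13]
      abel
    rw [h10, h14, lam_du h8, lam_du h12, smul_smul, ← ph_add]
    have h15 : u + (-u + w) = w := by abel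
    rw [h15, sub_self]
  exact LinearMap.mem_ker.1 (h1 hf)

theorem zk_of_dg (hψ : ψ.IsPrimitive) (hr : (r : F) ≠ 0) {k b : ℕ} (hk : 9 * k < q * q) (hq : 0 < q)
    (hb : b ≤ k) {f : (Ed q → ZMod r) → F} (hf : f ∈ Zk ψ q c k) (hd : f ∈ Dg ψ (Ed q) b) :
    f ∈ Zk ψ q c b := by
  have h1 : ∀ g ∈ Dg ψ (Ed q) b, g - Rk ψ q c k g ∈ Zk ψ q c b := by
    intro g hg
    unfold Dg at hg
    induction hg using Submodule.span_induction with
    | mem g hg =>
      obtain ⟨s, hs, rfl⟩ := hg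
      have hs' : wt s ≤ k := hs.trans hb
      rw [Rk_chi hψ hr hs']
      obtain ⟨w, h10, h11, _, h8⟩ := rep_du (k := k) hq hs'
      have h12 : rep (cls k s) - s = du w := by
        rw [h11]
        abel
      rw [h12, lam_du h10]
      apply Submodule.subset_span
      refine ⟨s, w, hs, ?_, h10, by rw [← h11]⟩
      rw [← h11]
      exact h8.trans hs
    | zero => simp
    | add g g' _ _ h h' =>
      rw [map_add]
      have : g + g' - (Rk ψ q c k g + Rk ψ q c k g') = (g - Rk ψ q c k g) + (g' - Rk ψ q c k g') := by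
        ring
      rw [this]
      exact Submodule.add_mem _ h h'
    | smul c g _ h =>
      rw [map_smul, ← smul_sub]
      exact Submodule.smul_mem _ _ h
  have h3 := h1 f hd
  rw [Rk_zero hψ hr hk hq hf, sub_zero] at h3
  exact h3

/-- one is not in the ideal -/
theorem one_notMem_zk (hψ : ψ.IsPrimitive) (hr : (r : F) ≠ 0) {k : ℕ} (hk : 9 * k < q * q) (hq : 0 < q) :
    (1 : (Ed q → ZMod r) → F) ∉ Zk ψ q c k := by
  intro h
  have h1 := Rk_zero hψ hr hk hq h
  have hw0 : wt (0 : Ed q → ZMod r) ≤ k := by rw [wt_zero]; exact Nat.zero_le _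
  rw [← chi_zero (ψ := ψ), Rk_chi hψ hr hw0] at h1
  obtain ⟨w, h10, h11, _, h8⟩ := rep_du (k := k) hq hw0
  have h12 : rep (cls k (0 : Ed q → ZMod r)) = 0 := by
    apply wt_eq_zero
    rw [wt_zero] at h8
    omega
  rw [h12, zero_add] at h11
  have h13 : w = 0 := du_eq_zero (by omega) h11.symm
  have h14 : lam ψ c (0 : Ed q → ZMod r) = 1 := by
    rw [← du_zero (q := q), lam_du (by rw [sp_zero]; simpa using hq), ph_zero]
  rw [h12, sub_zero, h14, one_smul, chi_zero] at h1
  have h15 := congrFun h1 0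
  simp at h15

end Tse

end Pool.Agent.H93.RG
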