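import Pool.Agent.H93.RG.RingB

/-!
# FG for blocks of size `r`: violations, restriction of scalars
-/

set_option autoImplicit false
set_option linter.unusedSectionVars false

namespace Pool.Agent.H93.RG

open Finset
open Pool.Agent.H67.FG (ind Alg)

section Vio

variable {q : ℕ} {F : Type} [Field F] {r : ℕ} [NeZero r] {ψ : AddChar (ZMod r) F}

theorem card_atv_le (a : Fin q) : (atv a).card ≤ q - 1 := by
  have h2 : ((atv a).image Subtype.val).card = (atv a).card :=
    card_image_of_injective _ Subtype.val_injective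
  rw [← h2]
  have h3 : (atv a).image Subtype.val ⊆ (univ.erase a).image (fun w => s(a, w)) := by
    intro e he
    rw [mem_image] at he
    obtain ⟨⟨e', he'⟩, h4, rfl⟩ := he
    unfold atv at h4
    rw [mem_filter] at h4
    obtain ⟨b, hb⟩ := h4.2
    have hb' : e' = s(a, b) := hb
    subst hb'
    rw [mem_image]
    have hne : a ≠ b := by simpa using he'
    exact ⟨b, mem_erase.2 ⟨hne.symm, mem_univ _⟩, rfl⟩
  refine (card_le_card h3).trans (card_image_le.trans ?_)
  rw [card_erase_of_mem (mem_univ _), card_univ, Fintype.card_fin]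

theorem du_single_of_notMem {a : Fin q} {j : ZMod r} {e : Ed q} (h : a ∉ e.1) :
    du (Pi.single a j) e = 0 := by
  obtain ⟨e, he⟩ := e
  induction e using Sym2.ind with
  | _ b d =>
    have hb : b ≠ a := fun h' => h (by subst h'; exact Sym2.mem_mk_left _ _)
    have hd : d ≠ a := fun h' => h (by subst h'; exact Sym2.mem_mk_right _ _)
    rw [du_mk, Pi.single_eq_of_ne hb, Pi.single_eq_of_ne hd]
    simp

theorem wt_du_single (a : Fin q) (j : ZMod r) : wt (du (Pi.single a j)) ≤ q - 1 := by
  refine le_trans (card_le_card ?_) (card_atv_le a)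
  intro e he
  rw [mem_filter] at he
  unfold atv
  rw [mem_filter]
  refine ⟨mem_univ _, ?_⟩
  by_contra h
  exact he.2 (du_single_of_notMem h)

theorem sp_single (a : Fin q) (j : ZMod r) : (sp (Pi.single a j)).card ≤ 1 := by
  refine (card_le_card (t := {a}) ?_).trans (by simp)
  intro i hi
  rw [mem_sp] at hi
  rw [mem_singleton]
  by_contra h
  exact hi (Pi.single_eq_of_ne h _)

theorem sum_du_single (a : Fin q) (j : ZMod r) (y : Ed q → ZMod r) :
    ∑ e, du (Pi.single a j) e * y e = j * ∑ b, flow y a b := by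
  have h1 : ∑ e, du (Pi.single a j) e * y e = ∑ e ∈ atv a, du (Pi.single a j) e * y e := by
    symm
    apply sum_subset (subset_univ _)
    intro e _ he
    unfold atv at he
    rw [mem_filter] at he
    rw [du_single_of_notMem (fun h => he ⟨mem_univ _, h⟩), zero_mul]
  have h2 : ∑ b, flow y a b = ∑ b ∈ univ.erase a, flow y a b := by
    rw [← Finset.add_sum_erase univ _ (mem_univ a)]
    have : flow y a a = 0 := by
      unfold flow
      rw [dif_pos]
      simp
    rw [this, zero_add]
  rw [h1, h2, mul_sum]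
  symm
  refine sum_bij (fun b hb => (⟨s(a, b), by
    have := (mem_erase.1 hb).1
    simpa using this.symm⟩ : Ed q)) ?_ ?_ ?_ ?_
  · intro b hb
    unfold atv
    rw [mem_filter]
    exact ⟨mem_univ _, Sym2.mem_mk_left _ _⟩
  · intro b hb b' hb' h
    have h3 : s(a, b) = s(a, b') := congrArg Subtype.val h
    exact Sym2.congr_right.1 h3
  · rintro ⟨e, he⟩ h3
    unfold atv at h3
    rw [mem_filter] at h3
    obtain ⟨b, hb⟩ := h3.2
    have hb' : e = s(a, b) := hb
    subst hb'
    have hne : a ≠ b := by simpa using he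
    exact ⟨b, mem_erase.2 ⟨hne.symm, mem_univ _⟩, rfl⟩
  · intro b hb
    have hne := (mem_erase.1 hb).1
    have hd : ¬ (s(a, b)).IsDiag := by simpa using hne.symm
    rw [du_mk hd]
    unfold flow
    rw [dif_neg hd, Pi.single_eq_same, Pi.single_eq_of_ne hne]
    split_ifs <;> ring

theorem chi_eq (s y : Ed q → ZMod r) : chi ψ s y = ψ (∑ e, s e * y e) := by
  unfold chi
  have key : ∀ S : Finset (Ed q), ∏ e ∈ S, ψ (s e * y e) = ψ (∑ e ∈ S, s e * y e) := by
    intro S
    induction S using Finset.induction_on with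
    | empty => simp
    | insert i S hi ih => rw [prod_insert hi, sum_insert hi, AddChar.map_add_eq_mul, ih]
  exact key univ

theorem ind_pos {Y k : Type} [Field k] {P : Y → Prop} {y : Y} (h : P y) : (ind P : Y → k) y = 1 := by
  simp [ind, h]

theorem ind_neg {Y k : Type} [Field k] {P : Y → Prop} {y : Y} (h : ¬ P y) : (ind P : Y → k) y = 0 := by
  simp [ind, h]

theorem vio_mem (hψ : ψ.IsPrimitive) (hr : (r : F) ≠ 0) (hq : 2 < q) (c : ℕ) (a : Fin q) :
    (ind (fun y => Vio c a y) : (Ed q → ZMod r) → F) ∈ Zk ψ q c (q - 1) := by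
  have h1 : (ind (fun y => Vio c a y) : (Ed q → ZMod r) → F) =
      (r : F)⁻¹ • ∑ j : ZMod r, (chi ψ 0 - ph ψ c (Pi.single a j) • chi ψ (0 + du (Pi.single a j))) := by
    funext y
    simp only [Pi.smul_apply, Finset.sum_apply, Pi.sub_apply, smul_eq_mul, zero_add, chi_zero, Pi.one_apply]
    have h2 : ∀ j : ZMod r, ph ψ c (Pi.single a j) * chi ψ (du (Pi.single a j)) y =
        ψ (j * ((∑ b, flow y a b) - ch r c a)) := by
      intro j
      rw [chi_eq, sum_du_single]
      unfold ph
      rw [← AddChar.map_add_eq_mul]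
      congr 1
      have h3 : ∑ b : Fin q, (Pi.single a j : Fin q → ZMod r) b * ch r c b = j * ch r c a := by
        rw [Finset.sum_eq_single a]
        · rw [Pi.single_eq_same]
        · intro b _ hb
          rw [Pi.single_eq_of_ne hb, zero_mul]
        · intro h
          exact absurd (mem_univ _) h
      rw [h3]
      ring
    simp only [h2]
    rw [sum_sub_distrib, mul_sub, ← delta hψ hr]
    rw [sum_const, card_univ, ZMod.card, nsmul_eq_mul, mul_one, inv_mul_cancel₀ hr]
    by_cases h : Vio c a y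
    · rw [ind_pos (P := fun y => Vio c a y) h, if_neg h, sub_zero]
    · rw [ind_neg (P := fun y => Vio c a y) h]
      unfold Vio at h
      rw [if_pos (not_not.1 h), sub_self]
  rw [h1]
  refine Submodule.smul_mem _ _ (Submodule.sum_mem _ fun j _ => Submodule.subset_span ?_)
  refine ⟨0, Pi.single a j, ?_, ?_, ?_, rfl⟩
  · rw [wt_zero]
    exact Nat.zero_le _
  · rw [zero_add]
    exact wt_du_single a j
  · have := sp_single a j
    omega

/-- the algebra over a field with a primitive character -/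
noncomputable def algF (ψ : AddChar (ZMod r) F) (hψ : ψ.IsPrimitive) (hr : (r : F) ≠ 0) (q K c : ℕ)
    (hq : 0 < q) (hK : 9 * K < q ^ 2) : Alg F (Ed q → ZMod r) where
  Deg := Dg ψ (Ed q)
  Z := Zk ψ q c K
  K := K
  one := one_mem
  mono := dg_mono
  mul := dg_mul
  zmul := by
    intro a b f h hab hf hh hz
    have h1 : h ∈ Zk ψ q c b := zk_of_dg hψ hr (by rw [← sq]; exact hK) hq (by omega) hz hh
    rw [mul_comm]
    exact zk_mono (by omega) (zk_mul h1 hf)
  ne := one_notMem_zk hψ hr (by rw [← sq]; exact hK) hq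

end Vio

section Scalars

variable {k F Y : Type} [Field k] [Field F] [Algebra k F]

/-- extension of scalars of a function -/
def ext (k F Y : Type) [Field k] [Field F] [Algebra k F] : (Y → k) →ₗ[k] (Y → F) where
  toFun f := fun y => algebraMap k F (f y)
  map_add' f g := by
    funext y
    simp
  map_smul' c f := by
    funext y
    simp [Algebra.smul_def]

theorem ext_one : ext k F Y 1 = 1 := by
  funext y
  simp [ext]

theorem ext_mul (f g : Y → k) : ext k F Y (f * g) = ext k F Y f * ext k F Y g := by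
  funext y
  simp [ext]

theorem ext_ind (P : Y → Prop) : ext k F Y (ind P) = ind P := by
  funext y
  by_cases h : P y
  · show algebraMap k F ((ind P : Y → k) y) = _
    rw [ind_pos h, ind_pos h, map_one]
  · show algebraMap k F ((ind P : Y → k) y) = _
    rw [ind_neg h, ind_neg h, map_zero]

/-- restriction of scalars -/
noncomputable def Alg.res (𝓐 : Alg F Y) : Alg k Y where
  Deg n := Submodule.comap (ext k F Y) ((𝓐.Deg n).restrictScalars k)
  Z := Submodule.comap (ext k F Y) (𝓐.Z.restrictScalars k)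
  K := 𝓐.K
  one := by
    intro n
    show ext k F Y 1 ∈ 𝓐.Deg n
    rw [ext_one]
    exact 𝓐.one n
  mono := by
    intro a b h f hf
    exact 𝓐.mono h hf
  mul := by
    intro a b f g hf hg
    show ext k F Y (f * g) ∈ 𝓐.Deg (a + b)
    rw [ext_mul]
    exact 𝓐.mul hf hg
  zmul := by
    intro a b f h hab hf hh hz
    show ext k F Y (f * h) ∈ 𝓐.Z
    rw [ext_mul]
    exact 𝓐.zmul hab hf hh hz
  ne := by
    intro h
    apply 𝓐.ne
    have h1 : ext k F Y 1 ∈ 𝓐.Z := h
    rwa [ext_one] at h1

end Scalars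

/-- the algebra: local functions have low degree, violations are in `Z` -/
theorem alg_exists' (p : ℕ) [Fact p.Prime] (r : ℕ) (hr : 2 ≤ r) (hpr : ¬ p ∣ r) (q K c : ℕ) (hq : 3 < q)
    (hK : 9 * K < q ^ 2) (hqK : q - 1 ≤ K) : ∃ 𝓐 : Alg (ZMod p) (Ed q → ZMod r), 𝓐.K = K ∧
      (∀ (S : Finset (Ed q)) (f : (Ed q → ZMod r) → ZMod p), (∀ y y', (∀ e ∈ S, y e = y' e) → f y = f y') →
        f ∈ 𝓐.Deg S.card) ∧ ∀ a : Fin q, ind (fun y => Vio c a y) ∈ 𝓐.Z := by
  have : NeZero r := ⟨by omega⟩
  have hr0 : ((⟨r, by omega⟩ : ℕ+) : ZMod p) ≠ 0 := by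
    show ((r : ℕ) : ZMod p) ≠ 0
    rw [Ne, ZMod.natCast_eq_zero_iff]
    exact hpr
  let P := AddChar.primitiveZModChar ⟨r, by omega⟩ (ZMod p) hr0
  have hr1 : (r : CyclotomicField P.n (ZMod p)) ≠ 0 := by
    intro h
    have h1 : (algebraMap (ZMod p) (CyclotomicField P.n (ZMod p))) ((r : ℕ) : ZMod p) = 0 := by
      rw [map_natCast]
      exact h
    exact hr0 ((map_eq_zero _).1 h1)
  let ψ : AddChar (ZMod r) (CyclotomicField P.n (ZMod p)) := P.char
  have hψ : ψ.IsPrimitive := P.prim
  refine ⟨Alg.res (k := ZMod p) (algF ψ hψ hr1 q K c (by omega) hK), rfl, ?_, ?_⟩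
  · intro S f hf
    show ext _ _ _ f ∈ Dg ψ (Ed q) S.card
    apply dg_junta hψ hr1
    intro y y' h
    show algebraMap _ _ (f y) = algebraMap _ _ (f y')
    rw [hf y y' h]
  · intro a
    show ext _ _ _ (ind _) ∈ Zk ψ q c K
    rw [ext_ind]
    exact zk_mono hqK (vio_mem hψ hr1 (by omega) c a)

end Pool.Agent.H93.RG
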