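import Pool.Agent.H93.RG.Mat
import Pool.Agent.H42.RG.Wor

/-!
# FG for blocks of size `r`: partial partitions of the uncovered points (port of H3/Ac/Wor)
-/

set_option autoImplicit false
set_option linter.unusedSectionVars false

namespace Pool.Agent.H93.RG

open Finset
open Pool.Agent.H3.Frg hiding ind
open Pool.Agent.H3.Ac (ldep SubCl)
open Pool.Agent.H67.FG (ind Alg Fo tr orAll orF IsRef Few)

variable {V : Type} [Fintype V] [DecidableEq V] {r : ℕ} {ρ : Finset (Finset V)}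

theorem card_Unc (hρ : IsM r ρ) : r * ρ.card + Fintype.card (Unc ρ) = Fintype.card V :=
  H42.RG.card_Unc hρ

theorem sub_lft (M : Finset (Finset (Unc ρ))) : ρ ⊆ lft ρ M :=
  H42.RG.sub_lft M

theorem isM_lft (hρ : IsM r ρ) {M : Finset (Finset (Unc ρ))} (hM : IsM r M) : IsM r (lft ρ M) :=
  H42.RG.isM_lft hρ hM

theorem lft_mono {M M' : Finset (Finset (Unc ρ))} (h : M ⊆ M') : lft ρ M ⊆ lft ρ M' :=
  H42.RG.lft_mono h

theorem card_lft (hr : 1 ≤ r) (hρ : IsM r ρ) {M : Finset (Finset (Unc ρ))} (hM : IsM r M) :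
    (lft ρ M).card = ρ.card + M.card :=
  H42.RG.card_lft hr hρ hM

theorem rst_lft (hr : 1 ≤ r) (hρ : IsM r ρ) {M : Finset (Finset (Unc ρ))} (hM : IsM r M) :
    rst ρ (lft ρ M) = M :=
  H42.RG.rst_lft hr hρ hM

theorem lft_rst {N : Finset (Finset V)} (hN : IsM r N) (h : ρ ⊆ N) : lft ρ (rst ρ N) = N :=
  H42.RG.lft_rst hN h

theorem isM_rst {N : Finset (Finset V)} (hN : IsM r N) : IsM r (rst ρ N) :=
  H42.RG.isM_rst hN

theorem rst_mono {N N' : Finset (Finset V)} (h : N ⊆ N') : rst ρ N ⊆ rst ρ N' :=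
  H42.RG.rst_mono h

theorem card_rst_le (N : Finset (Finset V)) : (rst ρ N).card ≤ N.card :=
  H42.RG.card_rst_le N

/-- `t ⊆ ρ ∪ M` implies `t ⊆ ρ ∪ (t ∩ M)` -/
theorem sub_lft_rst {t : Finset (Finset V)} {M : Finset (Finset (Unc ρ))} (h : t ⊆ lft ρ M) :
    t ⊆ lft ρ (rst ρ t) :=
  H42.RG.sub_lft_rst h

theorem rst_sub (hr : 1 ≤ r) (hρ : IsM r ρ) {t : Finset (Finset V)} {M : Finset (Finset (Unc ρ))} (hM : IsM r M)
    (h : t ⊆ lft ρ M) : rst ρ t ⊆ M :=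
  H42.RG.rst_sub hr hρ hM h

end Pool.Agent.H93.RG
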