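import Pool.Agent.H93.RG.Sw
import Pool.Agent.H93.RG.Fol
import Pool.Agent.H93.RG.Wor
import Pool.Agent.H3.Ac.Stp

/-!
# FG for blocks of size `r`: one level of depth (port of H3/Ac/Stp and H3/MPG/Step)

`S`: list of formulas closed under subformulas, values `val` (`Val r w (2 r r w)`, coherent) for the formulas of `S`
of left depth `≤ i`. `tm s i val C t`: the partial partition `t` is a term of the DNF of `C`. For a base `ρ` that is
not `Bad` for the lists of the terms of all `C ∈ S`, the new values are `nval`, functions of partial partitions of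
the uncovered points `Unc ρ`.
-/

set_option autoImplicit false
set_option linter.unusedSectionVars false

namespace Pool.Agent.H93.RG

open Finset
open Pool.Agent.H3.Frg hiding ind
open Pool.Agent.H3.Ac (ldep SubCl ldep_neg_le ldep_imp_le ldep_neg_succ ldep_imp_succ)

variable {W V : Type} [Fintype V] [DecidableEq V] {r : ℕ}

/-- terms of the DNF of a formula -/
def tm (s i : ℕ) (val : Fm W → Finset (Finset V) → Option Bool) : Fm W → Finset (Finset V) → Prop
  | Fm.var v, t => val (Fm.var v) t = some true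
  | Fm.neg A, t => (ldep s (Fm.neg A) ≤ i ∧ val (Fm.neg A) t = some true) ∨
      (¬ ldep s (Fm.neg A) ≤ i ∧ val A t = some false)
  | Fm.imp A B, t => (ldep s (Fm.imp A B) ≤ i ∧ val (Fm.imp A B) t = some true) ∨
      (¬ ldep s (Fm.imp A B) ≤ i ∧ (val A t = some false ∨ tm s i val B t))

open scoped Classical in
/-- the new values -/
noncomputable def nval (r s i w : ℕ) (val : Fm W → Finset (Finset V) → Option Bool)
    (ρ : Finset (Finset V)) (C : Fm W) (M : Finset (Finset (Unc ρ))) : Option Bool :=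
  if ldep s C ≤ i then val C (lft ρ M)
  else if ∃ π, ρ ⊆ π ∧ π ⊆ lft ρ M ∧ π.card ≤ ρ.card + w ∧
      ∃ t, IsM r t ∧ t.card ≤ w ∧ tm s i val C t ∧ t ⊆ π then some true
  else if ∃ π, ρ ⊆ π ∧ π ⊆ lft ρ M ∧ π.card ≤ ρ.card + w ∧
      ∀ t, IsM r t → t.card ≤ w → tm s i val C t → ¬ Cmp r t π then some false
  else none

theorem stp_tm_iff {s i : ℕ} {val : Fm W → Finset (Finset V) → Option Bool} {C : Fm W}
    (h : ldep s C ≤ i) (t : Finset (Finset V)) : tm s i val C t ↔ val C t = some true := by
  cases C with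
  | var v => exact Iff.rfl
  | neg A =>
    simp only [tm]
    constructor
    · rintro (h1 | h1)
      · exact h1.2
      · exact absurd h h1.1
    · exact fun h1 => Or.inl ⟨h, h1⟩
  | imp A B =>
    simp only [tm]
    constructor
    · rintro (h1 | h1)
      · exact h1.2
      · exact absurd h h1.1
    · exact fun h1 => Or.inl ⟨h, h1⟩

/-- the true case -/
def StpT (r s i w : ℕ) (val : Fm W → Finset (Finset V) → Option Bool)
    (ρ : Finset (Finset V)) (C : Fm W) (M : Finset (Finset (Unc ρ))) : Prop :=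
  ∃ π, ρ ⊆ π ∧ π ⊆ lft ρ M ∧ π.card ≤ ρ.card + w ∧
      ∃ t, IsM r t ∧ t.card ≤ w ∧ tm s i val C t ∧ t ⊆ π

/-- the false case -/
def StpF (r s i w : ℕ) (val : Fm W → Finset (Finset V) → Option Bool)
    (ρ : Finset (Finset V)) (C : Fm W) (M : Finset (Finset (Unc ρ))) : Prop :=
  ∃ π, ρ ⊆ π ∧ π ⊆ lft ρ M ∧ π.card ≤ ρ.card + w ∧
      ∀ t, IsM r t → t.card ≤ w → tm s i val C t → ¬ Cmp r t π

section

variable {s i w : ℕ} {val : Fm W → Finset (Finset V) → Option Bool} {ρ : Finset (Finset V)}
  {C : Fm W}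

theorem stp_nval_old (h : ldep s C ≤ i) (M : Finset (Finset (Unc ρ))) :
    nval r s i w val ρ C M = val C (lft ρ M) := by
  unfold nval
  rw [if_pos h]

theorem stp_excl (hρ : IsM r ρ) {M M' N : Finset (Finset (Unc ρ))} (hN : IsM r N) (h1 : M ⊆ N)
    (h2 : M' ⊆ N) (hT : StpT r s i w val ρ C M) (hF : StpF r s i w val ρ C M') : False := by
  obtain ⟨π, _, hπ, _, t, ht1, ht2, ht3, ht4⟩ := hT
  obtain ⟨π', _, hπ', _, hF⟩ := hF
  apply hF t ht1 ht2 ht3
  unfold Cmp
  apply isM_sub (isM_lft hρ hN)
  apply union_subset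
  · exact (ht4.trans hπ).trans (lft_mono h1)
  · exact hπ'.trans (lft_mono h2)

theorem stp_nval_true (h : ¬ ldep s C ≤ i) {M : Finset (Finset (Unc ρ))}
    (hT : StpT r s i w val ρ C M) : nval r s i w val ρ C M = some true := by
  unfold StpT at hT
  unfold nval
  rw [if_neg h, if_pos hT]

theorem stp_nval_false (hρ : IsM r ρ) (h : ¬ ldep s C ≤ i) {M : Finset (Finset (Unc ρ))}
    (hM : IsM r M) (hF : StpF r s i w val ρ C M) : nval r s i w val ρ C M = some false := by
  have hne : ¬ StpT r s i w val ρ C M := fun hT =>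
    stp_excl hρ hM (Subset.refl _) (Subset.refl _) hT hF
  unfold StpT at hne
  unfold StpF at hF
  unfold nval
  rw [if_neg h, if_neg hne, if_pos hF]

theorem stp_true_of (h : ¬ ldep s C ≤ i) {M : Finset (Finset (Unc ρ))}
    (hv : nval r s i w val ρ C M = some true) : StpT r s i w val ρ C M := by
  by_contra hne
  unfold StpT at hne
  unfold nval at hv
  rw [if_neg h, if_neg hne] at hv
  split_ifs at hv
  · cases hv

theorem stp_false_of (h : ¬ ldep s C ≤ i) {M : Finset (Finset (Unc ρ))}
    (hv : nval r s i w val ρ C M = some false) : StpF r s i w val ρ C M := by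
  by_contra hne
  unfold StpF at hne
  unfold nval at hv
  rw [if_neg h, if_neg hne] at hv
  split_ifs at hv
  · cases hv

theorem stp_T_mono {M M' : Finset (Finset (Unc ρ))} (h : M ⊆ M')
    (hT : StpT r s i w val ρ C M) : StpT r s i w val ρ C M' := by
  obtain ⟨π, h1, h2, h3⟩ := hT
  exact ⟨π, h1, h2.trans (lft_mono h), h3⟩

theorem stp_F_mono {M M' : Finset (Finset (Unc ρ))} (h : M ⊆ M')
    (hF : StpF r s i w val ρ C M) : StpF r s i w val ρ C M' := by
  obtain ⟨π, h1, h2, h3⟩ := hF
  exact ⟨π, h1, h2.trans (lft_mono h), h3⟩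

/-- transport of an extension -/
theorem stp_ext (hr : 1 ≤ r) (hρ : IsM r ρ) {M : Finset (Finset (Unc ρ))} (hM : IsM r M) {N : Finset (Finset V)} (hN : IsM r N)
    (h : lft ρ M ⊆ N) (hc : N.card ≤ (lft ρ M).card + w) :
    IsM r (rst ρ N) ∧ M ⊆ rst ρ N ∧ (rst ρ N).card ≤ M.card + w ∧ lft ρ (rst ρ N) = N := by
  have hsub : ρ ⊆ N := (sub_lft M).trans h
  have e1 := lft_rst hN hsub
  refine ⟨isM_rst hN, ?_, ?_, e1⟩
  · have h1 := rst_mono (ρ := ρ) h
    rwa [rst_lft hr hρ hM] at h1
  · have h1 := card_lft hr hρ (isM_rst (ρ := ρ) hN)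
    rw [e1] at h1
    have h2 := card_lft hr hρ hM
    omega

/-- old formulas keep their properties -/
theorem stp_val_old (hr : 1 ≤ r) (hρ : IsM r ρ) (h : ldep s C ≤ i) (hval : Val r w (2 * r * r * w) (val C)) :
    Val r w (2 * r * r * w) (nval r s i w val ρ C) := by
  have hU := card_Unc hρ
  constructor
  · intro M M' hM' hMM b hb
    rw [stp_nval_old h] at hb ⊢
    exact hval.mono _ _ (isM_lft hρ hM') (lft_mono hMM) b hb
  · intro M hM b hb
    rw [stp_nval_old h] at hb
    obtain ⟨t, ht1, ht2, ht3⟩ := hval.wit _ (isM_lft hρ hM) b hb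
    refine ⟨rst ρ t, rst_sub hr hρ hM ht1, (card_rst_le t).trans ht2, ?_⟩
    rw [stp_nval_old h]
    exact hval.mono _ _ (isM_lft hρ (isM_sub hM (rst_sub hr hρ hM ht1))) (sub_lft_rst ht1) b ht3
  · intro M hM hroom
    have hc := card_lft hr hρ hM
    obtain ⟨N, hN1, hN2, hN3, hN4⟩ := hval.tot (lft ρ M) (isM_lft hρ hM)
      (by rw [hc, Nat.mul_add]; omega)
    obtain ⟨e1, e2, e3, e4⟩ := stp_ext hr hρ hM hN1 hN2 hN3
    refine ⟨rst ρ N, e1, e2, e3, ?_⟩
    rw [stp_nval_old h, e4]
    exact hN4

open scoped Classical in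
/-- the list of the terms of `C` -/
noncomputable def stpL (r s i w : ℕ) (val : Fm W → Finset (Finset V) → Option Bool) (C : Fm W) :
    List (Finset (Finset V)) :=
  ((univ : Finset (Finset (Finset V))).filter
    (fun t => IsM r t ∧ t.card ≤ w ∧ tm s i val C t)).toList

open scoped Classical in
theorem mem_stpL {t : Finset (Finset V)} :
    t ∈ stpL r s i w val C ↔ IsM r t ∧ t.card ≤ w ∧ tm s i val C t := by
  unfold stpL
  rw [mem_toList, mem_filter]
  simp

/-- new formulas -/
theorem stp_val_new (hr : 1 ≤ r) (hρ : IsM r ρ) (h : ¬ ldep s C ≤ i) (hgood : ¬ Bad r (stpL r s i w val C) w ρ) :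
    Val r w (2 * r * r * w) (nval r s i w val ρ C) := by
  have hU := card_Unc hρ
  constructor
  · intro M M' hM' hMM b hb
    cases b with
    | true => exact stp_nval_true h (stp_T_mono hMM (stp_true_of h hb))
    | false => exact stp_nval_false hρ h hM' (stp_F_mono hMM (stp_false_of h hb))
  · intro M hM b hb
    have hwit : ∀ π, ρ ⊆ π → π ⊆ lft ρ M → π.card ≤ ρ.card + w →
        rst ρ π ⊆ M ∧ (rst ρ π).card ≤ w ∧ lft ρ (rst ρ π) = π := by
      intro π h1 h2 h3
      have hπ : IsM r π := isM_sub (isM_lft hρ hM) h2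
      have e1 := lft_rst hπ h1
      have e2 := card_lft hr hρ (isM_rst (ρ := ρ) hπ)
      rw [e1] at e2
      exact ⟨rst_sub hr hρ hM h2, by omega, e1⟩
    cases b with
    | true =>
      obtain ⟨π, h1, h2, h3, h4⟩ := stp_true_of h hb
      obtain ⟨a1, a2, a3⟩ := hwit π h1 h2 h3
      exact ⟨rst ρ π, a1, a2, stp_nval_true h ⟨π, h1, a3.symm.subset, h3, h4⟩⟩
    | false =>
      obtain ⟨π, h1, h2, h3, h4⟩ := stp_false_of h hb
      obtain ⟨a1, a2, a3⟩ := hwit π h1 h2 h3
      exact ⟨rst ρ π, a1, a2, stp_nval_false hρ h (isM_sub hM a1)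
        ⟨π, h1, a3.symm.subset, h3, h4⟩⟩
  · intro M hM hroom
    have hc := card_lft hr hρ hM
    have hrw : r * w + r * (r * w) ≤ 2 * r * r * w := by
      have h1 : r * w ≤ r * (r * w) := Nat.le_mul_of_pos_left _ hr
      have h2 : 2 * r * r * w = r * (r * w) + r * (r * w) := by ring
      omega
    obtain ⟨M', π, b1, b2, b3, b4, b5, b6, b7⟩ := follow hr (stpL r s i w val C) w w
      (fun t ht => ⟨(mem_stpL.1 ht).1, (mem_stpL.1 ht).2.1⟩) (isM_lft hρ hM) (sub_lft M) hgood
      (by rw [hc, Nat.mul_add]; omega)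
    obtain ⟨e1, e2, e3, e4⟩ := stp_ext hr hρ hM b1 b2 b5
    refine ⟨rst ρ M', e1, e2, e3, ?_⟩
    have hπ : π ⊆ lft ρ (rst ρ M') := by rw [e4]; exact b4
    rcases b7 with b7 | ⟨t, b7, b8⟩
    · rw [stp_nval_false hρ h e1 ⟨π, b3, hπ, b6, ?_⟩]
      · simp
      · intro t ht1 ht2 ht3 hcmp
        unfold fst at b7
        rw [List.find?_eq_none] at b7
        exact b7 t (mem_stpL.2 ⟨ht1, ht2, ht3⟩) (by simpa using hcmp)
    · have hmem : t ∈ stpL r s i w val C := by
        unfold fst at b7
        exact List.mem_of_find?_eq_some b7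
      rw [mem_stpL] at hmem
      rw [stp_nval_true h ⟨π, b3, hπ, b6, t, hmem.1, hmem.2.1, hmem.2.2, b8⟩]
      simp

/-- a term inside `lft ρ M` excludes the value false -/
theorem stp_tm_up (hρ : IsM r ρ) (hval : ldep s C ≤ i → Val r w (2 * r * r * w) (val C))
    {M : Finset (Finset (Unc ρ))} (hM : IsM r M) {t : Finset (Finset V)} (ht1 : IsM r t)
    (ht2 : t.card ≤ w) (ht3 : tm s i val C t) (ht4 : t ⊆ lft ρ M) :
    nval r s i w val ρ C M ≠ some false := by
  by_cases h : ldep s C ≤ i
  · rw [stp_nval_old h, (hval h).mono _ _ (isM_lft hρ hM) ht4 true ((stp_tm_iff h t).1 ht3)]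
    simp
  · intro hv
    obtain ⟨π, _, hπ, _, h4⟩ := stp_false_of h hv
    apply h4 t ht1 ht2 ht3
    exact isM_sub (isM_lft hρ hM) (union_subset ht4 hπ)

/-- the value true has a term inside `lft ρ M` -/
theorem stp_tm_dn (hρ : IsM r ρ) (hval : ldep s C ≤ i → Val r w (2 * r * r * w) (val C))
    {M : Finset (Finset (Unc ρ))} (hM : IsM r M) (hv : nval r s i w val ρ C M = some true) :
    ∃ t, IsM r t ∧ t.card ≤ w ∧ tm s i val C t ∧ t ⊆ lft ρ M := by
  by_cases h : ldep s C ≤ i
  · rw [stp_nval_old h] at hv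
    obtain ⟨t, h1, h2, h3⟩ := (hval h).wit _ (isM_lft hρ hM) true hv
    exact ⟨t, isM_sub (isM_lft hρ hM) h1, h2, (stp_tm_iff h t).2 h3, h1⟩
  · obtain ⟨π, _, hπ, _, t, h1, h2, h3, h4⟩ := stp_true_of h hv
    exact ⟨t, h1, h2, h3, h4.trans hπ⟩

end


/-- one level of depth; the base `ρ` is given -/
theorem ac_step_base (hr : 1 ≤ r) (s i w ℓ m : ℕ) (S : List (Fm W)) (hS : SubCl {A | A ∈ S})
    (val : Fm W → Finset (Finset V) → Option Bool)
    (hval : ∀ A ∈ S, ldep s A ≤ i → Val r w (2 * r * r * w) (val A))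
    (hcoh : Coh r val {A | A ∈ S ∧ ldep s A ≤ i})
    (hn : r * m + ℓ = Fintype.card V) (hw : 2 ^ (r + 2) * w * ℓ ^ (r * r) ≤ m + 1)
    (hS2 : S.length ≤ 2 ^ w) :
    ∃ ρ : Finset (Finset V), IsM r ρ ∧ ρ.card = m ∧
      (∀ A ∈ S, ldep s A ≤ i + 1 → Val r w (2 * r * r * w) (nval r s i w val ρ A)) ∧
      Coh r (nval r s i w val ρ) {A | A ∈ S ∧ ldep s A ≤ i + 1} := by
  obtain ⟨ρ, hρ, hρm, hgood⟩ := exists_good hr (V := V) (ι := Fin S.length) w ℓ w m hn hw
    (fun j => stpL r s i w val (S.get j))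
    (fun j t ht => ⟨(mem_stpL.1 ht).1, (mem_stpL.1 ht).2.1⟩) (by simpa using hS2)
  have hgood' : ∀ C ∈ S, ¬ Bad r (stpL r s i w val C) w ρ := by
    intro C hC
    obtain ⟨j, hj⟩ := List.mem_iff_get.1 hC
    rw [← hj]
    exact hgood j
  refine ⟨ρ, hρ, hρm, ?_, ?_⟩
  · intro A hA _
    by_cases h : ldep s A ≤ i
    · exact stp_val_old hr hρ h (hval A hA h)
    · exact stp_val_new hr hρ h (hgood' A hA)
  · constructor
    · rintro A ⟨hAS, hAd⟩ M hM a b ha hb
      have hA : A ∈ S := hS.1 A hAS
      by_cases h : ldep s (Fm.neg A) ≤ i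
      · have hA' := ldep_neg_le h
        rw [stp_nval_old hA'] at ha
        rw [stp_nval_old h] at hb
        exact hcoh.neg A ⟨hAS, h⟩ _ (isM_lft hρ hM) a b ha hb
      · have hA' := ldep_neg_succ hAd h
        have hvA := hval A hA hA'
        rw [stp_nval_old hA'] at ha
        cases b with
        | true =>
          obtain ⟨π, _, hπ, _, t, h1, h2, h3, h4⟩ := stp_true_of h hb
          have h5 : val A t = some false := by
            simp only [tm] at h3
            rcases h3 with h3 | h3
            · exact absurd h3.1 h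
            · exact h3.2
          have h6 := hvA.mono _ _ (isM_lft hρ hM) (h4.trans hπ) false h5
          rw [h6] at ha
          cases ha
          rfl
        | false =>
          obtain ⟨π, _, hπ, _, h4⟩ := stp_false_of h hb
          cases a with
          | true => rfl
          | false =>
            exfalso
            obtain ⟨t, h5, h6, h7⟩ := hvA.wit _ (isM_lft hρ hM) false ha
            apply h4 t (isM_sub (isM_lft hρ hM) h5) h6
            · simp only [tm]
              exact Or.inr ⟨h, h7⟩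
            · exact isM_sub (isM_lft hρ hM) (union_subset h5 hπ)
    · rintro A B ⟨hABS, hABd⟩ M hM a b c ha hb hc
      obtain ⟨hA, hB⟩ := hS.2 A B hABS
      by_cases h : ldep s (Fm.imp A B) ≤ i
      · obtain ⟨hA', hB'⟩ := ldep_imp_le h
        rw [stp_nval_old hA'] at ha
        rw [stp_nval_old hB'] at hb
        rw [stp_nval_old h] at hc
        exact hcoh.imp A B ⟨hABS, h⟩ _ (isM_lft hρ hM) a b c ha hb hc
      · obtain ⟨hA', hB'⟩ := ldep_imp_succ hABd h
        have hvA := hval A hA hA'
        rw [stp_nval_old hA'] at ha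
        cases c with
        | true =>
          obtain ⟨π, _, hπ, _, t, h1, h2, h3, h4⟩ := stp_true_of h hc
          simp only [tm] at h3
          rcases h3 with h3 | ⟨_, h3 | h3⟩
          · exact absurd h3.1 h
          · have h6 := hvA.mono _ _ (isM_lft hρ hM) (h4.trans hπ) false h3
            rw [h6] at ha
            cases ha
            rfl
          · have h7 := stp_tm_up hρ (hval B hB) hM h1 h2 h3 (h4.trans hπ)
            rw [hb] at h7
            cases b with
            | true => simp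
            | false => exact absurd rfl h7
        | false =>
          obtain ⟨π, _, hπ, _, h4⟩ := stp_false_of h hc
          have hat : a = true := by
            cases a with
            | true => rfl
            | false =>
              exfalso
              obtain ⟨t, h5, h6, h7⟩ := hvA.wit _ (isM_lft hρ hM) false ha
              apply h4 t (isM_sub (isM_lft hρ hM) h5) h6
              · simp only [tm]
                exact Or.inr ⟨h, Or.inl h7⟩
              · exact isM_sub (isM_lft hρ hM) (union_subset h5 hπ)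
          have hbf : b = false := by
            cases b with
            | false => rfl
            | true =>
              exfalso
              obtain ⟨t, h5, h6, h7, h8⟩ := stp_tm_dn hρ (hval B hB) hM hb
              apply h4 t h5 h6
              · simp only [tm]
                exact Or.inr ⟨h, Or.inr h7⟩
              · exact isM_sub (isM_lft hρ hM) (union_subset h8 hπ)
          rw [hat, hbf]
          rfl

end Pool.Agent.H93.RG
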