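import Pool.Agent.H93.RG.Cnt
import Pool.Agent.H86.RG.Sw

/-!
# FG for blocks of size `r`: the switching lemma (port of H3/Ac/Sw)
-/

set_option autoImplicit false
set_option linter.unusedSectionVars false

namespace Pool.Agent.H93.RG

open Finset
open Pool.Agent.H3.Frg hiding ind
open Pool.Agent.H3.Ac (ldep SubCl)
open Pool.Agent.H67.FG (ind Alg Fo tr orAll orF IsRef Few)

variable {V : Type} [Fintype V] [DecidableEq V] {r : ℕ}

/-- the switching lemma, in the form of the existence of a good base for at most `2 ^ k` lists -/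
theorem exists_good (hr : 1 ≤ r) {ι : Type} [Fintype ι] (w ℓ k m : ℕ) (hn : r * m + ℓ = Fintype.card V)
    (hw : 2 ^ (r + 2) * w * ℓ ^ (r * r) ≤ m + 1) (F : ι → List (Finset (Finset V)))
    (hF : ∀ i, ∀ t ∈ F i, IsM r t ∧ t.card ≤ w) (hι : Fintype.card ι ≤ 2 ^ k) :
    ∃ ρ, IsM r ρ ∧ ρ.card = m ∧ ∀ i, ¬ Bad r (F i) k ρ :=
  H86.RG.exists_good hr w ℓ k m hn hw F hF hι

end Pool.Agent.H93.RG
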